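import Pool.Agent.Lib.MP_d216ef_co.Topo

/-!
# MP_d216ef_co: definitions, and the faces of an octahedral cycle lie in one p-component
-/

set_option autoImplicit false

namespace Pool.Agent.Lib.BeerIndex

open Set Metric Topology MeasureTheory
open scoped ENNReal

section defs

variable {E : Type*} [NormedAddCommGroup E] [NormedSpace ℝ E]

/-- `A` and `B` are joined by a polygonal line in `S` (finitely many closed segments contained in `S`). -/
def PolyJoined (S : Set E) (A B : E) : Prop :=
  Relation.ReflTransGen (fun X Y => segment ℝ X Y ⊆ S) A B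

/-- the p-component of `A` in `S` -/
def pComponent (S : Set E) (A : E) : Set E := {B | B ∈ S ∧ PolyJoined S A B}

/-- supremum of the measures of the convex subsets of `S` -/
noncomputable def supc [MeasureSpace E] (S : Set E) : ℝ≥0∞ :=
  ⨆ (K : Set E) (_ : Convex ℝ K ∧ K ⊆ S), volume K

/-- the `k`-simplex set `H_k(S)` of `S` -/
def simplexSet (k : ℕ) (S : Set E) : Set (Fin (k + 1) → E) :=
  {A | (∀ i, A i ∈ S) ∧ convexHull ℝ (range A) ⊆ S}

/-- the `k`-index of convexity of `S` is defined: `S` is (Lebesgue) measurable of positive finite measure and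
`H_k(S)` is (Lebesgue) measurable -/
def IndexDefined [MeasureSpace E] (k : ℕ) (S : Set E) : Prop :=
  NullMeasurableSet S (volume : Measure E) ∧ volume S ≠ 0 ∧ volume S ≠ ∞ ∧
    NullMeasurableSet (simplexSet k S) (volume : Measure (Fin (k + 1) → E))

/-- the `k`-index of convexity `b_k(S)` -/
noncomputable def convIndex [MeasureSpace E] (k : ℕ) (S : Set E) : ℝ :=
  (volume (simplexSet k S)).toReal / (volume S).toReal ^ (k + 1)

/-- the convexity ratio `c(S)` -/
noncomputable def convRatio [MeasureSpace E] (S : Set E) : ℝ :=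
  (supc S).toReal / (volume S).toReal

theorem le_supc [MeasureSpace E] {S K : Set E} (h1 : Convex ℝ K) (h2 : K ⊆ S) :
    volume K ≤ supc S :=
  le_iSup₂_of_le (f := fun (K : Set E) (_ : Convex ℝ K ∧ K ⊆ S) => volume K) K ⟨h1, h2⟩ le_rfl

end defs

section faces

variable {E : Type*} [NormedAddCommGroup E] [NormedSpace ℝ E] {d : ℕ}

theorem PolyJoined.of_segment {S : Set E} {A B : E} (h : segment ℝ A B ⊆ S) : PolyJoined S A B :=
  Relation.ReflTransGen.single h

theorem PolyJoined.trans {S : Set E} {A B C : E} (h : PolyJoined S A B) (h' : PolyJoined S B C) :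
    PolyJoined S A C := Relation.ReflTransGen.trans h h'

theorem joined_of_mem_face {S : Set E} {b : Fin d → E} (hb : convexHull ℝ (range b) ⊆ S) {A B : E}
    (hA : A ∈ convexHull ℝ (range b)) (hB : B ∈ convexHull ℝ (range b)) : PolyJoined S A B :=
  .of_segment (((convex_convexHull ℝ _).segment_subset hA hB).trans hb)

/-- all points of an octahedral cycle with faces in `S` are in the p-component of a vertex -/
theorem ff_mem_pComponent {S : Set E} (hd : 2 ≤ d) (a : Fin d → Bool → E)
    (hface : ∀ b : Fin d → Bool, convexHull ℝ (range fun i => a i (b i)) ⊆ S)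
    {w : EuclideanSpace ℝ (Fin d)} (hw : n1 w = 1) :
    ff a w ∈ pComponent S (a ⟨0, by omega⟩ true) := by
  set i0 : Fin d := ⟨0, by omega⟩ with hi0
  set i1 : Fin d := ⟨1, by omega⟩ with hi1
  have h01 : i1 ≠ i0 := by
    intro h
    have := congrArg Fin.val h
    simp [hi0, hi1] at this
  have hv : ∀ (b : Fin d → Bool) (i : Fin d), a i (b i) ∈ convexHull ℝ (range fun i => a i (b i)) :=
    fun b i => subset_convexHull ℝ _ ⟨i, rfl⟩
  -- vertices with index `≠ 0` are joined to the base vertex
  have hj1 : ∀ i, i ≠ i0 → ∀ c : Bool, PolyJoined S (a i0 true) (a i c) := by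
    intro i hi c
    set b : Fin d → Bool := Function.update (fun _ => true) i c with hb
    have e1 : b i0 = true := by simp [hb, Function.update_of_ne hi.symm]
    have e2 : b i = c := by simp [hb]
    have h1 := hv b i0
    have h2 := hv b i
    rw [e1] at h1
    rw [e2] at h2
    exact joined_of_mem_face (hface b) h1 h2
  have hj0 : ∀ c : Bool, PolyJoined S (a i0 true) (a i0 c) := by
    intro c
    refine (hj1 i1 h01 true).trans ?_
    set b : Fin d → Bool := Function.update (fun _ => true) i0 c with hb
    have e1 : b i0 = c := by simp [hb]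
    have e2 : b i1 = true := by simp [hb, Function.update_of_ne h01]
    have h1 := hv b i0
    have h2 := hv b i1
    rw [e1] at h1
    rw [e2] at h2
    exact joined_of_mem_face (hface b) h2 h1
  set b : Fin d → Bool := fun i => decide (0 ≤ w i) with hb
  have hff : ff a w = ∑ i, |w i| • a i (b i) := by
    refine ff_eq a w b fun i => ⟨fun h => of_decide_eq_true h, fun h => ?_⟩
    exact (not_le.1 (of_decide_eq_false h)).le
  have hmem : ff a w ∈ convexHull ℝ (range fun i => a i (b i)) := by
    rw [hff]
    exact (convex_convexHull ℝ _).sum_mem (fun i _ => abs_nonneg _) hw (fun i _ => hv b i)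
  refine ⟨hface b hmem, (hj0 (b i0)).trans ?_⟩
  exact joined_of_mem_face (hface b) (hv b i0) hmem

end faces

end Pool.Agent.Lib.BeerIndex
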