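import Mathlib
import Pool.Agent.Lib.MP_d216ef_co.Defs

section

section

/-!
# MP_d216ef_co: Cauchy-Schwarz counting of octahedral cycles
-/

set_option autoImplicit false

namespace Pool.Agent.Lib.BeerIndex

open Set MeasureTheory Finset
open scoped ENNReal

section general

variable {X : Type*} [MeasurableSpace X] {ι : Type*} [Fintype ι] [DecidableEq ι]
  (μ : Measure X) [IsProbabilityMeasure μ]

/-- resampling one coordinate -/
theorem resample {f : (ι → X) → ℝ≥0∞} (hf : Measurable f) (κ : ι) :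
    ∫⁻ ω, ∫⁻ x, f (Function.update ω κ x) ∂μ ∂(Measure.pi fun _ : ι => μ) =
      ∫⁻ ω, f ω ∂(Measure.pi fun _ : ι => μ) := by
  classical
  obtain ⟨x0⟩ : Nonempty (ι → X) := ⟨fun _ => (μ.nonempty_of_neZero).some⟩
  have hm : Measurable fun ω : ι → X => ∫⁻ x, f (Function.update ω κ x) ∂μ := by
    refine Measurable.lintegral_prod_right' (f := fun p : (ι → X) × X =>
      f (Function.update p.1 κ p.2)) (hf.comp ?_)
    exact measurable_update'
  rw [lintegral_eq_lmarginal_univ (μ := fun _ : ι => μ) x0,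
    lintegral_eq_lmarginal_univ (μ := fun _ : ι => μ) x0,
    lmarginal_erase' (μ := fun _ : ι => μ) _ hm (Finset.mem_univ κ),
    lmarginal_erase' (μ := fun _ : ι => μ) f hf (Finset.mem_univ κ)]
  congr 1
  funext ω
  simp

theorem sq_lintegral_le {Ω : Type*} [MeasurableSpace Ω] (P : Measure Ω) [IsProbabilityMeasure P]
    {G : Ω → ℝ≥0∞} (hG : Measurable G) : (∫⁻ ω, G ω ∂P) ^ 2 ≤ ∫⁻ ω, G ω * G ω ∂P := by
  have h := ENNReal.lintegral_mul_le_Lp_mul_Lq P (p := 2) (q := 2)
    Real.HolderConjugate.two_two hG.aemeasurable (measurable_const (a := (1 : ℝ≥0∞))).aemeasurable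
  simp only [Pi.mul_apply, mul_one, ENNReal.one_rpow, lintegral_const, measure_univ,
    ENNReal.rpow_two, one_pow] at h
  calc (∫⁻ ω, G ω ∂P) ^ 2 ≤ ((∫⁻ ω, G ω ^ 2 ∂P) ^ (1 / 2 : ℝ)) ^ 2 := by gcongr
    _ = ∫⁻ ω, G ω ^ 2 ∂P := by
      rw [← ENNReal.rpow_two, ← ENNReal.rpow_mul]
      norm_num
    _ = ∫⁻ ω, G ω * G ω ∂P := by simp only [sq]

/-- doubling a coordinate -/
theorem cs_step {κ0 κ1 : ι} (hne : κ0 ≠ κ1) {F : (ι → X) → ℝ≥0∞} (hF : Measurable F)
    (hind : ∀ ω x, F (Function.update ω κ1 x) = F ω) :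
    (∫⁻ ω, F ω ∂(Measure.pi fun _ : ι => μ)) ^ 2 ≤
      ∫⁻ ω, F ω * F (Function.update ω κ0 (ω κ1)) ∂(Measure.pi fun _ : ι => μ) := by
  classical
  set G : (ι → X) → ℝ≥0∞ := fun ω => ∫⁻ x, F (Function.update ω κ0 x) ∂μ with hG
  have hGm : Measurable G := by
    refine Measurable.lintegral_prod_right' (f := fun p : (ι → X) × X =>
      F (Function.update p.1 κ0 p.2)) (hF.comp ?_)
    exact measurable_update'
  have hm1 : Measurable fun ω : ι → X => F ω * F (Function.update ω κ0 (ω κ1)) := by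
    have hu : Measurable fun p : (ι → X) × X => Function.update p.1 κ0 p.2 := measurable_update'
    exact hF.mul (hF.comp (hu.comp (measurable_id.prodMk (measurable_pi_apply κ1))))
  have e1 : ∫⁻ ω, F ω * F (Function.update ω κ0 (ω κ1)) ∂(Measure.pi fun _ : ι => μ) =
      ∫⁻ ω, F ω * G ω ∂(Measure.pi fun _ : ι => μ) := by
    rw [← resample μ hm1 κ1]
    refine lintegral_congr fun ω => ?_
    have hc : F ω * G ω = ∫⁻ x, F ω * F (Function.update ω κ0 x) ∂μ :=
      (lintegral_const_mul (F ω) (hF.comp (measurable_update ω))).symm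
    rw [hc]
    refine lintegral_congr fun x => ?_
    rw [hind, Function.update_self, Function.update_comm hne.symm, hind]
  have e2 : ∫⁻ ω, F ω * G ω ∂(Measure.pi fun _ : ι => μ) =
      ∫⁻ ω, G ω * G ω ∂(Measure.pi fun _ : ι => μ) := by
    have hm2 : Measurable fun ω : ι → X => F ω * G ω := hF.mul hGm
    rw [← resample μ hm2 κ0]
    refine lintegral_congr fun ω => ?_
    have : ∀ x, G (Function.update ω κ0 x) = G ω := fun x => by simp [hG]
    simp only [this]
    exact lintegral_mul_const (G ω) (hF.comp (measurable_update ω))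
  have e3 : ∫⁻ ω, F ω ∂(Measure.pi fun _ : ι => μ) =
      ∫⁻ ω, G ω ∂(Measure.pi fun _ : ι => μ) := (resample μ hF κ0).symm
  rw [e1, e2, e3]
  exact sq_lintegral_le _ hGm

end general

section octa

variable {X : Type*} [MeasurableSpace X] {n : ℕ} (μ : Measure X) [IsProbabilityMeasure μ]

/-- the value of `h` on the face `b` of the octahedral cycle `ω` -/
def fval (h : (Fin n → X) → ℝ≥0∞) (b : Fin n → Bool) (ω : Fin n × Bool → X) : ℝ≥0∞ :=
  h fun i => ω (i, b i)

theorem measurable_fval {h : (Fin n → X) → ℝ≥0∞} (hh : Measurable h) (b : Fin n → Bool) :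
    Measurable (fval h b) :=
  hh.comp (measurable_pi_lambda _ fun _ => measurable_pi_apply _)

/-- product over the faces with support in `J` -/
noncomputable def PhiJ (h : (Fin n → X) → ℝ≥0∞) (J : Finset (Fin n)) (ω : Fin n × Bool → X) :
    ℝ≥0∞ :=
  ∏ b ∈ Finset.univ.filter (fun b : Fin n → Bool => ∀ i, b i = true → i ∈ J), fval h b ω

/-- product over the faces with `b j = c` -/
noncomputable def Psi (h : (Fin n → X) → ℝ≥0∞) (j : Fin n) (c : Bool) (ω : Fin n × Bool → X) :
    ℝ≥0∞ :=
  ∏ b ∈ Finset.univ.filter (fun b : Fin n → Bool => b j = c), fval h b ω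

/-- product over all faces -/
noncomputable def Phi (h : (Fin n → X) → ℝ≥0∞) (ω : Fin n × Bool → X) : ℝ≥0∞ :=
  ∏ b : Fin n → Bool, fval h b ω

theorem measurable_PhiJ {h : (Fin n → X) → ℝ≥0∞} (hh : Measurable h) (J : Finset (Fin n)) :
    Measurable (PhiJ h J) := Finset.measurable_prod _ fun b _ => measurable_fval hh b

theorem measurable_Psi {h : (Fin n → X) → ℝ≥0∞} (hh : Measurable h) (j : Fin n) (c : Bool) :
    Measurable (Psi h j c) := Finset.measurable_prod _ fun b _ => measurable_fval hh b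

theorem measurable_Phi {h : (Fin n → X) → ℝ≥0∞} (hh : Measurable h) :
    Measurable (Phi h) := Finset.measurable_prod _ fun b _ => measurable_fval hh b

theorem fval_update_ne (h : (Fin n → X) → ℝ≥0∞) (b : Fin n → Bool) (ω : Fin n × Bool → X)
    {j : Fin n} {c : Bool} (hb : b j ≠ c) (x : X) :
    fval h b (Function.update ω (j, c) x) = fval h b ω := by
  unfold fval
  congr 1
  funext i
  rw [Function.update_of_ne]
  intro he
  rw [Prod.mk.injEq] at he
  exact hb (by rw [← he.1, he.2])

theorem fval_flip (h : (Fin n → X) → ℝ≥0∞) (b : Fin n → Bool) (ω : Fin n × Bool → X)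
    {j : Fin n} {c : Bool} (hb : b j = c) (x : X) :
    fval h b (Function.update ω (j, c) x) =
      fval h (Function.update b j (!c)) (Function.update ω (j, !c) x) := by
  unfold fval
  congr 1
  funext i
  by_cases hi : i = j
  · subst hi
    simp [hb]
  · rw [Function.update_of_ne, Function.update_of_ne hi, Function.update_of_ne]
    · intro he
      exact hi (Prod.ext_iff.1 he).1
    · intro he
      exact hi (Prod.ext_iff.1 he).1

theorem Psi_indep (h : (Fin n → X) → ℝ≥0∞) (j : Fin n) (c : Bool) (ω : Fin n × Bool → X) (x : X) :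
    Psi h j c (Function.update ω (j, !c) x) = Psi h j c ω := by
  unfold Psi
  refine Finset.prod_congr rfl fun b hb => fval_update_ne h b ω ?_ x
  rw [(Finset.mem_filter.1 hb).2]
  cases c <;> simp

theorem Psi_flip (h : (Fin n → X) → ℝ≥0∞) (j : Fin n) (c : Bool) (ω : Fin n × Bool → X) (x : X) :
    Psi h j c (Function.update ω (j, c) x) = Psi h j (!c) (Function.update ω (j, !c) x) := by
  unfold Psi
  refine Finset.prod_bij' (fun b _ => Function.update b j (!c)) (fun b _ => Function.update b j c)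
    ?_ ?_ ?_ ?_ ?_
  · intro b _
    simp
  · intro b _
    simp
  · intro b hb
    rw [Function.update_idem, ← (Finset.mem_filter.1 hb).2, Function.update_eq_self]
  · intro b hb
    rw [Function.update_idem, ← (Finset.mem_filter.1 hb).2, Function.update_eq_self]
  · intro b hb
    exact fval_flip h b ω (Finset.mem_filter.1 hb).2 x

theorem lintegral_Psi {h : (Fin n → X) → ℝ≥0∞} (hh : Measurable h) (j : Fin n) (c : Bool) :
    ∫⁻ ω, Psi h j c ω ∂(Measure.pi fun _ : Fin n × Bool => μ) =
      ∫⁻ ω, Psi h j false ω ∂(Measure.pi fun _ : Fin n × Bool => μ) := by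
  cases c with
  | false => rfl
  | true =>
    rw [← resample μ (measurable_Psi hh j true) (j, true),
      ← resample μ (measurable_Psi hh j false) (j, false)]
    refine lintegral_congr fun ω => lintegral_congr fun x => ?_
    exact Psi_flip h j true ω x

theorem Phi_eq (h : (Fin n → X) → ℝ≥0∞) (j : Fin n) (ω : Fin n × Bool → X) :
    Phi h ω = Psi h j false ω * Psi h j false (Function.update ω (j, false) (ω (j, true))) := by
  have e1 : Psi h j false (Function.update ω (j, false) (ω (j, true))) = Psi h j true ω := by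
    rw [Psi_flip]
    simp
  rw [e1]
  unfold Phi Psi
  rw [← Finset.prod_filter_mul_prod_filter_not Finset.univ (fun b : Fin n → Bool => b j = false)]
  congr 1
  refine Finset.prod_congr ?_ fun _ _ => rfl
  ext b
  simp

/-- `q_j² ≤ q` -/
theorem sq_Psi_le {h : (Fin n → X) → ℝ≥0∞} (hh : Measurable h) (j : Fin n) :
    (∫⁻ ω, Psi h j false ω ∂(Measure.pi fun _ : Fin n × Bool => μ)) ^ 2 ≤
      ∫⁻ ω, Phi h ω ∂(Measure.pi fun _ : Fin n × Bool => μ) := by
  have h1 := cs_step μ (κ0 := (j, false)) (κ1 := (j, true)) (by simp) (measurable_Psi hh j false)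
    (fun ω x => Psi_indep h j false ω x)
  refine h1.trans (le_of_eq (lintegral_congr fun ω => ?_))
  exact (Phi_eq h j ω).symm

theorem PhiJ_step {h : (Fin n → X) → ℝ≥0∞} (hh : Measurable h) {J : Finset (Fin n)} {j : Fin n}
    (hj : j ∉ J) :
    (∫⁻ ω, PhiJ h J ω ∂(Measure.pi fun _ : Fin n × Bool => μ)) ^ 2 ≤
      ∫⁻ ω, PhiJ h (insert j J) ω ∂(Measure.pi fun _ : Fin n × Bool => μ) := by
  have hJ : ∀ b ∈ Finset.univ.filter (fun b : Fin n → Bool => ∀ i, b i = true → i ∈ J),
      b j = false := by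
    intro b hb
    by_contra hc
    exact hj ((Finset.mem_filter.1 hb).2 j (by simpa using hc))
  have h1 := cs_step μ (κ0 := (j, false)) (κ1 := (j, true)) (by simp) (measurable_PhiJ hh J)
    (fun ω x => by
      unfold PhiJ
      exact Finset.prod_congr rfl fun b hb => fval_update_ne h b ω (by rw [hJ b hb]; simp) x)
  refine h1.trans (le_of_eq (lintegral_congr fun ω => ?_))
  have e1 : PhiJ h J (Function.update ω (j, false) (ω (j, true))) =
      ∏ b ∈ (Finset.univ.filter (fun b : Fin n → Bool => ∀ i, b i = true → i ∈ insert j J)).filter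
        (fun b => ¬ b j = false), fval h b ω := by
    unfold PhiJ
    refine Finset.prod_bij' (fun b _ => Function.update b j true)
      (fun b _ => Function.update b j false) ?_ ?_ ?_ ?_ ?_
    · intro b hb
      simp only [Finset.mem_filter, Finset.mem_univ, true_and, Function.update_self]
      refine ⟨fun i hi => ?_, by simp⟩
      by_cases hij : i = j
      · rw [hij]; exact Finset.mem_insert_self _ _
      · rw [Function.update_of_ne hij] at hi
        exact Finset.mem_insert_of_mem ((Finset.mem_filter.1 hb).2 i hi)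
    · intro b hb
      simp only [Finset.mem_filter, Finset.mem_univ, true_and] at hb ⊢
      intro i hi
      by_cases hij : i = j
      · rw [hij, Function.update_self] at hi
        simp at hi
      · rw [Function.update_of_ne hij] at hi
        exact (Finset.mem_insert.1 (hb.1 i hi)).resolve_left hij
    · intro b hb
      rw [Function.update_idem, ← hJ b hb, Function.update_eq_self]
    · intro b hb
      have : b j = true := by simpa using (Finset.mem_filter.1 hb).2
      rw [Function.update_idem, ← this, Function.update_eq_self]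
    · intro b hb
      rw [fval_flip h b ω (hJ b hb)]
      simp
  rw [e1]
  have e2 : PhiJ h J ω =
      ∏ b ∈ (Finset.univ.filter (fun b : Fin n → Bool => ∀ i, b i = true → i ∈ insert j J)).filter
        (fun b => b j = false), fval h b ω := by
    unfold PhiJ
    refine Finset.prod_congr ?_ fun _ _ => rfl
    ext b
    simp only [Finset.mem_filter, Finset.mem_univ, true_and]
    constructor
    · intro hb
      exact ⟨fun i hi => Finset.mem_insert_of_mem (hb i hi), hJ b (by simpa using hb)⟩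
    · rintro ⟨hb, hbj⟩ i hi
      refine (Finset.mem_insert.1 (hb i hi)).resolve_left fun hij => ?_
      rw [hij, hbj] at hi
      simp at hi
  rw [e2]
  unfold PhiJ
  exact Finset.prod_filter_mul_prod_filter_not _ _ _

theorem PhiJ_ge {h : (Fin n → X) → ℝ≥0∞} (hh : Measurable h) (J : Finset (Fin n)) :
    (∫⁻ ω, PhiJ h ∅ ω ∂(Measure.pi fun _ : Fin n × Bool => μ)) ^ (2 ^ J.card) ≤
      ∫⁻ ω, PhiJ h J ω ∂(Measure.pi fun _ : Fin n × Bool => μ) := by
  induction J using Finset.induction_on with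
  | empty => simp
  | insert j J hj ih =>
    rw [Finset.card_insert_of_notMem hj, pow_succ, pow_mul]
    calc _ ≤ (∫⁻ ω, PhiJ h J ω ∂(Measure.pi fun _ : Fin n × Bool => μ)) ^ 2 := by gcongr
      _ ≤ _ := PhiJ_step μ hh hj

theorem PhiJ_erase (h : (Fin n → X) → ℝ≥0∞) (j : Fin n) :
    PhiJ h (Finset.univ.erase j) = Psi h j false := by
  funext ω
  unfold PhiJ Psi
  refine Finset.prod_congr ?_ fun _ _ => rfl
  ext b
  simp only [Finset.mem_filter, Finset.mem_univ, true_and, Finset.mem_erase, and_true]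
  constructor
  · intro hb
    by_contra hc
    exact hb j (by simpa using hc) rfl
  · intro hb i hi hij
    rw [hij, hb] at hi
    simp at hi

theorem PhiJ_empty (h : (Fin n → X) → ℝ≥0∞) (ω : Fin n × Bool → X) :
    PhiJ h ∅ ω = h fun i => ω (i, false) := by
  unfold PhiJ
  have : Finset.univ.filter (fun b : Fin n → Bool => ∀ i, b i = true → i ∈ (∅ : Finset (Fin n))) =
      {fun _ => false} := by
    ext b
    simp [funext_iff]
  rw [this, Finset.prod_singleton]
  rfl

/-- the marginal of the points `(i, false)` -/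
theorem lintegral_false {h : (Fin n → X) → ℝ≥0∞} (hh : Measurable h) :
    ∫⁻ ω, h (fun i => ω (i, false)) ∂(Measure.pi fun _ : Fin n × Bool => μ) =
      ∫⁻ a, h a ∂(Measure.pi fun _ : Fin n => μ) := by
  have hm : Measurable fun ω : Fin n × Bool → X => fun i => ω (i, false) :=
    measurable_pi_lambda _ fun _ => measurable_pi_apply _
  have hmap : Measure.map (fun ω : Fin n × Bool → X => fun i => ω (i, false))
      (Measure.pi fun _ : Fin n × Bool => μ) = Measure.pi fun _ : Fin n => μ := by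
    symm
    refine Measure.pi_eq fun s hs => ?_
    rw [Measure.map_apply hm (MeasurableSet.univ_pi hs)]
    have : (fun ω : Fin n × Bool → X => fun i => ω (i, false)) ⁻¹' (Set.univ.pi s) =
        Set.univ.pi fun p : Fin n × Bool => if p.2 = false then s p.1 else Set.univ := by
      ext ω
      simp only [Set.mem_preimage, Set.mem_pi, Set.mem_univ, true_implies]
      constructor
      · rintro hω ⟨i, c⟩
        cases c
        · simpa using hω i
        · simp
      · intro hω i
        simpa using hω (i, false)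
    rw [this, Measure.pi_pi, Fintype.prod_prod_type]
    simp
  rw [← hmap, lintegral_map hh hm]

/-- `b^{2^{n-1}} ≤ q_j` -/
theorem pow_le_Psi {h : (Fin n → X) → ℝ≥0∞} (hh : Measurable h) (j : Fin n) :
    (∫⁻ a, h a ∂(Measure.pi fun _ : Fin n => μ)) ^ (2 ^ (n - 1)) ≤
      ∫⁻ ω, Psi h j false ω ∂(Measure.pi fun _ : Fin n × Bool => μ) := by
  have h1 := PhiJ_ge μ hh (Finset.univ.erase j)
  rw [PhiJ_erase, Finset.card_erase_of_mem (Finset.mem_univ _), Finset.card_univ,
    Fintype.card_fin] at h1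
  rw [← lintegral_false μ hh]
  simpa only [PhiJ_empty] using h1

end octa

end Pool.Agent.Lib.BeerIndex
end

section

/-!
# MP_d216ef_co: barycentric parametrisations and volumes
-/

set_option autoImplicit false

namespace Pool.Agent.Lib.BeerIndex

open Set MeasureTheory Topology Filter
open scoped ENNReal

variable {k : ℕ}

/-- barycentric coordinates of the parameter `t` -/
def bary (t : Fin k → ℝ) : Fin (k + 1) → ℝ := Fin.cons (1 - ∑ i, t i) t

@[simp] theorem bary_zero (t : Fin k → ℝ) : bary t 0 = 1 - ∑ i, t i := rfl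

@[simp] theorem bary_succ (t : Fin k → ℝ) (i : Fin k) : bary t i.succ = t i := rfl

theorem sum_bary (t : Fin k → ℝ) : ∑ i, bary t i = 1 := by
  rw [Fin.sum_univ_succ]
  simp

theorem bary_comb (s t : Fin k → ℝ) {a b : ℝ} (hab : a + b = 1) (i : Fin (k + 1)) :
    bary (a • s + b • t) i = a * bary s i + b * bary t i := by
  refine Fin.cases ?_ (fun j => ?_) i
  · simp only [bary_zero, Pi.add_apply, Pi.smul_apply, smul_eq_mul, Finset.sum_add_distrib,
      ← Finset.mul_sum]
    linear_combination (-1 : ℝ) * hab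
  · simp

theorem continuous_bary : Continuous (bary : (Fin k → ℝ) → Fin (k + 1) → ℝ) := by
  refine continuous_pi fun i => ?_
  refine Fin.cases ?_ (fun j => ?_) i
  · simp only [bary_zero]
    fun_prop
  · simp only [bary_succ]
    fun_prop

@[fun_prop]
theorem continuous_bary_apply (i : Fin (k + 1)) :
    Continuous (fun t : Fin k → ℝ => bary t i) := (continuous_apply i).comp continuous_bary

/-- the point with parameter `t` of the simplex with vertices `p` -/
noncomputable def UU {F : Type*} [AddCommGroup F] [Module ℝ F] (p : Fin (k + 1) → F)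
    (t : Fin k → ℝ) : F := ∑ i, bary t i • p i

theorem UU_comb {F : Type*} [AddCommGroup F] [Module ℝ F] (p : Fin (k + 1) → F)
    (s t : Fin k → ℝ) {a b : ℝ} (hab : a + b = 1) :
    UU p (a • s + b • t) = a • UU p s + b • UU p t := by
  unfold UU
  rw [Finset.smul_sum, Finset.smul_sum, ← Finset.sum_add_distrib]
  refine Finset.sum_congr rfl fun i _ => ?_
  rw [bary_comb s t hab, smul_smul, smul_smul, add_smul]

/-- the matrix of edge vectors -/
def mat (p : Fin (k + 1) → Fin k → ℝ) : Matrix (Fin k) (Fin k) ℝ :=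
  Matrix.of fun j i => p i.succ j - p 0 j

theorem UU_eq (p : Fin (k + 1) → Fin k → ℝ) (t : Fin k → ℝ) :
    UU p t = Matrix.toLin' (mat p) t + p 0 := by
  funext j
  simp only [UU, Fin.sum_univ_succ, bary_zero, bary_succ, Pi.add_apply, Finset.sum_apply,
    Pi.smul_apply, smul_eq_mul, Matrix.toLin'_apply, Matrix.mulVec, dotProduct, mat, Matrix.of_apply,
    sub_mul, Finset.sum_sub_distrib, ← Finset.mul_sum]
  have : ∑ i : Fin k, t i * p i.succ j = ∑ i : Fin k, p i.succ j * t i :=
    Finset.sum_congr rfl fun i _ => mul_comm _ _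
  rw [this]
  ring

/-- the absolute value of the determinant -/
noncomputable def JJ (p : Fin (k + 1) → Fin k → ℝ) : ℝ := |(mat p).det|

theorem JJ_nonneg (p : Fin (k + 1) → Fin k → ℝ) : 0 ≤ JJ p := abs_nonneg _

theorem volume_image_UU (p : Fin (k + 1) → Fin k → ℝ) (A : Set (Fin k → ℝ)) :
    volume (UU p '' A) = ENNReal.ofReal (JJ p) * volume A := by
  have h1 : UU p '' A = (fun x => x + p 0) '' (Matrix.toLin' (mat p) '' A) := by
    rw [image_image]
    exact image_congr fun t _ => UU_eq p t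
  have h2 := Measure.addHaar_image_linearMap volume (Matrix.toLin' (mat p)) A
  rw [LinearMap.det_toLin'] at h2
  rw [h1, JJ, ← h2]
  simp

/-- the inverse parametrisation -/
noncomputable def co (p : Fin (k + 1) → Fin k → ℝ) (y : Fin k → ℝ) : Fin k → ℝ :=
  Matrix.toLin' (mat p)⁻¹ (y - p 0)

theorem isUnit_det {p : Fin (k + 1) → Fin k → ℝ} (hp : 0 < JJ p) : IsUnit (mat p).det :=
  isUnit_iff_ne_zero.2 (abs_pos.1 hp)

theorem UU_co {p : Fin (k + 1) → Fin k → ℝ} (hp : 0 < JJ p) (y : Fin k → ℝ) :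
    UU p (co p y) = y := by
  rw [UU_eq, co, ← LinearMap.comp_apply, ← Matrix.toLin'_mul,
    Matrix.mul_nonsing_inv _ (isUnit_det hp)]
  simp

theorem co_UU {p : Fin (k + 1) → Fin k → ℝ} (hp : 0 < JJ p) (t : Fin k → ℝ) :
    co p (UU p t) = t := by
  rw [UU_eq, co, add_sub_cancel_right, ← LinearMap.comp_apply, ← Matrix.toLin'_mul,
    Matrix.nonsing_inv_mul _ (isUnit_det hp)]
  simp

theorem co_comb (p : Fin (k + 1) → Fin k → ℝ) (x y : Fin k → ℝ) {a b : ℝ} (hab : a + b = 1) :
    co p (a • x + b • y) = a • co p x + b • co p y := by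
  unfold co
  rw [← map_smul, ← map_smul, ← map_add]
  congr 1
  have : p 0 = a • p 0 + b • p 0 := by rw [← add_smul, hab, one_smul]
  rw [smul_sub, smul_sub]
  nth_rewrite 1 [this]
  abel

@[fun_prop]
theorem continuous_co (p : Fin (k + 1) → Fin k → ℝ) : Continuous (co p) := by
  unfold co
  exact (LinearMap.continuous_of_finiteDimensional _).comp (by fun_prop)

/-- barycentric coordinates of `y` with respect to `p` -/
noncomputable def bc (p : Fin (k + 1) → Fin k → ℝ) (y : Fin k → ℝ) : Fin (k + 1) → ℝ := bary (co p y)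

theorem bc_comb (p : Fin (k + 1) → Fin k → ℝ) (x y : Fin k → ℝ) {a b : ℝ} (hab : a + b = 1)
    (i : Fin (k + 1)) : bc p (a • x + b • y) i = a * bc p x i + b * bc p y i := by
  rw [bc, co_comb p x y hab, bary_comb _ _ hab]
  rfl

@[fun_prop]
theorem continuous_bc (p : Fin (k + 1) → Fin k → ℝ) (i : Fin (k + 1)) :
    Continuous fun y => bc p y i := (continuous_bary_apply i).comp (continuous_co p)

theorem sum_bc (p : Fin (k + 1) → Fin k → ℝ) (y : Fin k → ℝ) : ∑ i, bc p y i = 1 := sum_bary _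

theorem sum_bc_smul {p : Fin (k + 1) → Fin k → ℝ} (hp : 0 < JJ p) (y : Fin k → ℝ) :
    ∑ i, bc p y i • p i = y := UU_co hp y

/-- uniqueness of barycentric coordinates -/
theorem eq_bc {p : Fin (k + 1) → Fin k → ℝ} (hp : 0 < JJ p) {y : Fin k → ℝ} {c : Fin (k + 1) → ℝ}
    (h1 : ∑ i, c i = 1) (h2 : ∑ i, c i • p i = y) : c = bc p y := by
  have hc : c = bary (fun i : Fin k => c i.succ) := by
    funext i
    refine Fin.cases ?_ (fun j => ?_) i
    · rw [bary_zero, ← h1, Fin.sum_univ_succ]
      ring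
    · rfl
  have h3 : UU p (fun i : Fin k => c i.succ) = y := by
    rw [← h2, UU, ← hc]
  rw [bc, ← h3, co_UU hp, ← hc]

/-- affine independence -/
theorem eq_zero_of_comb {p : Fin (k + 1) → Fin k → ℝ} (hp : 0 < JJ p) {c : Fin (k + 1) → ℝ}
    (h1 : ∑ i, c i = 0) (h2 : ∑ i, c i • p i = 0) : c = 0 := by
  have h3 := eq_bc hp (y := p 0) (c := c + bc p (p 0)) (by
    simp only [Pi.add_apply, Finset.sum_add_distrib, h1, sum_bc, zero_add]) (by
    simp only [Pi.add_apply, add_smul, Finset.sum_add_distrib, h2, sum_bc_smul hp, zero_add])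
  simpa using h3

/-! ### the parameter simplex -/

theorem measurableSet_open_simplex : MeasurableSet {t : Fin k → ℝ | ∀ i, 0 < bary t i} := by
  rw [ofPred_forall]
  exact MeasurableSet.iInter fun i =>
    (isOpen_lt continuous_const (continuous_bary_apply i)).measurableSet

theorem isOpen_open_simplex : IsOpen {t : Fin k → ℝ | ∀ i, 0 < bary t i} := by
  rw [ofPred_forall]
  exact isOpen_iInter_of_finite fun i => isOpen_lt continuous_const (continuous_bary_apply i)

theorem isClosed_simplex : IsClosed {t : Fin k → ℝ | ∀ i, 0 ≤ bary t i} := by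
  rw [ofPred_forall]
  exact isClosed_iInter fun i => isClosed_le continuous_const (continuous_bary_apply i)

theorem simplex_subset_Icc : {t : Fin k → ℝ | ∀ i, 0 ≤ bary t i} ⊆ Icc 0 1 := by
  intro t ht
  have h1 : ∀ i, 0 ≤ t i := fun i => ht i.succ
  refine ⟨h1, fun i => ?_⟩
  have h2 := ht 0
  rw [bary_zero] at h2
  have := Finset.single_le_sum (f := t) (fun i _ => h1 i) (Finset.mem_univ i)
  simp only [Pi.one_apply]
  linarith

theorem isCompact_simplex : IsCompact {t : Fin k → ℝ | ∀ i, 0 ≤ bary t i} :=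
  (isCompact_Icc (a := (0 : Fin k → ℝ)) (b := 1)).of_isClosed_subset isClosed_simplex
    simplex_subset_Icc

theorem volume_simplex_le_one : volume {t : Fin k → ℝ | ∀ i, 0 ≤ bary t i} ≤ 1 := by
  refine (measure_mono simplex_subset_Icc).trans ?_
  rw [Real.volume_Icc_pi]
  simp

theorem volume_open_simplex_pos : 0 < volume {t : Fin k → ℝ | ∀ i, 0 < bary t i} := by
  refine isOpen_open_simplex.measure_pos _ ⟨fun _ => 1 / (k + 1 : ℝ), fun i => ?_⟩
  have hk : (0 : ℝ) < k + 1 := by positivity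
  refine Fin.cases ?_ (fun j => ?_) i
  · rw [bary_zero]
    simp only [Finset.sum_const, Finset.card_univ, Fintype.card_fin, nsmul_eq_mul]
    rw [sub_pos, mul_one_div, div_lt_one hk]
    linarith
  · rw [bary_succ]
    positivity

theorem open_simplex_subset : {t : Fin k → ℝ | ∀ i, 0 < bary t i} ⊆ {t | ∀ i, 0 ≤ bary t i} :=
  fun _ ht i => (ht i).le

/-- the zero set of a nonzero linear functional, shifted, is a null set -/
theorem volume_hyperplane {F : Type*} [NormedAddCommGroup F] [NormedSpace ℝ F]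
    [MeasurableSpace F] [BorelSpace F] [FiniteDimensional ℝ F] (μ : Measure F) [μ.IsAddHaarMeasure]
    (φ : F →ₗ[ℝ] ℝ) (hφ : φ ≠ 0) (c : ℝ) : μ {x | φ x = c} = 0 := by
  by_cases h : ∃ x0, φ x0 = c
  · obtain ⟨x0, hx0⟩ := h
    have h1 : {x | φ x = c} = (fun x => x + x0) '' (LinearMap.ker φ : Set F) := by
      ext x
      simp only [mem_ofPred_eq, mem_image, SetLike.mem_coe, LinearMap.mem_ker]
      constructor
      · intro hx
        exact ⟨x - x0, by rw [map_sub, hx, hx0, sub_self], by abel⟩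
      · rintro ⟨z, hz, rfl⟩
        rw [map_add, hz, hx0, zero_add]
    have h2 : LinearMap.ker φ ≠ ⊤ := by
      rwa [Ne, LinearMap.ker_eq_top]
    rw [h1]
    have h3 := Measure.addHaar_submodule μ (LinearMap.ker φ) h2
    simpa using h3
  · have : {x | φ x = c} = ∅ := by
      ext x
      simp only [mem_ofPred_eq, mem_empty_iff_false, iff_false]
      exact fun hx => h ⟨x, hx⟩
    rw [this, measure_empty]

theorem volume_bary_zero (i : Fin (k + 1)) (hk : 1 ≤ k) :
    volume {t : Fin k → ℝ | bary t i = 0} = 0 := by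
  refine Fin.cases ?_ (fun j => ?_) i
  · have h1 : {t : Fin k → ℝ | bary t 0 = 0} = {t | (∑ i, LinearMap.proj i : (Fin k → ℝ) →ₗ[ℝ] ℝ) t = 1} := by
      ext t
      simp only [bary_zero, mem_ofPred_eq, LinearMap.sum_apply, LinearMap.proj_apply]
      constructor <;> intro h <;> linarith
    rw [h1]
    refine volume_hyperplane volume _ ?_ 1
    intro h
    have h2 := LinearMap.congr_fun h (Pi.single ⟨0, hk⟩ 1)
    simp at h2
  · have h1 : {t : Fin k → ℝ | bary t j.succ = 0} =
        {t | (LinearMap.proj j : (Fin k → ℝ) →ₗ[ℝ] ℝ) t = 0} := by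
      ext t
      simp
    rw [h1]
    refine volume_hyperplane volume _ ?_ 0
    intro h
    have h2 := LinearMap.congr_fun h (Pi.single j 1)
    simp at h2

/-- shallow points have small volume -/
theorem exists_shallow (hk : 1 ≤ k) {δ : ℝ≥0∞} (hδ : 0 < δ) : ∃ κ : ℝ, 0 < κ ∧
    volume {t : Fin k → ℝ | (∀ i, 0 ≤ bary t i) ∧ ∃ i, bary t i < κ} ≤ δ := by
  set s : ℕ → Set (Fin k → ℝ) := fun n =>
    {t | (∀ i, 0 ≤ bary t i) ∧ ∃ i, bary t i < 1 / ((n : ℝ) + 1)} with hs
  have hm : ∀ n, MeasurableSet (s n) := by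
    intro n
    have h2 : s n = {t | ∀ i, 0 ≤ bary t i} ∩ ⋃ i, {t | bary t i < 1 / ((n : ℝ) + 1)} := by
      ext t
      simp [hs]
    rw [h2]
    exact isClosed_simplex.measurableSet.inter (MeasurableSet.iUnion fun i =>
      (isOpen_lt (continuous_bary_apply i) continuous_const).measurableSet)
  have hanti : Antitone s := by
    intro m n hmn t ht
    obtain ⟨h1, i, hi⟩ := ht
    refine ⟨h1, i, hi.trans_le ?_⟩
    have : (m : ℝ) ≤ n := by exact_mod_cast hmn
    gcongr
  have hlim := tendsto_measure_iInter_atTop (μ := volume) (s := s)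
    (fun n => (hm n).nullMeasurableSet) hanti ⟨0, by
      refine ne_of_lt (lt_of_le_of_lt (measure_mono ?_) (lt_of_le_of_lt volume_simplex_le_one
        ENNReal.one_lt_top))
      exact fun t ht => ht.1⟩
  have hzero : volume (⋂ n, s n) = 0 := by
    have hsub : (⋂ n, s n) ⊆ ⋃ i, {t : Fin k → ℝ | bary t i = 0} := by
      intro t ht
      by_contra hc
      simp only [mem_iUnion, mem_ofPred_eq, not_exists] at hc
      have h0 : ∀ i, 0 ≤ bary t i := (mem_iInter.1 ht 0).1
      have hpos : ∀ i, 0 < bary t i := fun i => lt_of_le_of_ne (h0 i) (Ne.symm (hc i))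
      obtain ⟨i0, -, hi0⟩ := Finset.exists_min_image Finset.univ (bary t)
        (Finset.univ_nonempty (α := Fin (k + 1)))
      obtain ⟨n, hn⟩ := exists_nat_one_div_lt (hpos i0)
      obtain ⟨-, i, hi⟩ := mem_iInter.1 ht n
      have := hi0 i (Finset.mem_univ i)
      linarith
    refine measure_mono_null hsub ?_
    exact (measure_iUnion_null fun i => volume_bary_zero i hk)
  rw [hzero] at hlim
  obtain ⟨n, hn⟩ := (hlim.eventually (gt_mem_nhds hδ)).exists
  exact ⟨1 / ((n : ℝ) + 1), by positivity, hn.le⟩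

end Pool.Agent.Lib.BeerIndex
end
end

section

section

/-!
# MP_d216ef_co: volumes of slabs and tubes over subsets of `ℝ^k`
-/

set_option autoImplicit false

namespace Pool.Agent.Lib.BeerIndex

open Set MeasureTheory Topology Filter
open scoped ENNReal

variable {k : ℕ}

/-- the last `k` coordinates -/
def uu (x : EuclideanSpace ℝ (Fin (k + 1))) : Fin k → ℝ := fun i => x i.succ

@[simp] theorem uu_apply (x : EuclideanSpace ℝ (Fin (k + 1))) (i : Fin k) : uu x i = x i.succ := rfl

theorem uu_add (x y : EuclideanSpace ℝ (Fin (k + 1))) : uu (x + y) = uu x + uu y := rfl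

theorem uu_smul (c : ℝ) (x : EuclideanSpace ℝ (Fin (k + 1))) : uu (c • x) = c • uu x := rfl

theorem uu_sum {ι : Type*} (s : Finset ι) (f : ι → EuclideanSpace ℝ (Fin (k + 1))) :
    uu (∑ i ∈ s, f i) = ∑ i ∈ s, uu (f i) := by
  funext j
  simp

@[fun_prop]
theorem continuous_uu : Continuous (uu : EuclideanSpace ℝ (Fin (k + 1)) → Fin k → ℝ) := by
  unfold uu
  fun_prop

theorem mp_split : MeasurePreserving
    (fun x : EuclideanSpace ℝ (Fin (k + 1)) => (x 0, uu x)) volume volume := by
  have h := (volume_preserving_piFinSuccAbove (fun _ : Fin (k + 1) => ℝ) 0).comp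
    (PiLp.volume_preserving_ofLp (Fin (k + 1)))
  exact h

/-- a set fibred over `B` with fibres of constant length -/
theorem volume_fibred {B : Set (Fin k → ℝ)} (hB : MeasurableSet B) {F : (Fin k → ℝ) → Set ℝ}
    {c : ℝ≥0∞} (hF : ∀ y, volume (F y) = c)
    (hD : MeasurableSet {p : ℝ × (Fin k → ℝ) | p.2 ∈ B ∧ p.1 ∈ F p.2}) :
    volume {x : EuclideanSpace ℝ (Fin (k + 1)) | uu x ∈ B ∧ x 0 ∈ F (uu x)} = c * volume B := by
  have h1 : {x : EuclideanSpace ℝ (Fin (k + 1)) | uu x ∈ B ∧ x 0 ∈ F (uu x)} =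
      (fun x : EuclideanSpace ℝ (Fin (k + 1)) => (x 0, uu x)) ⁻¹'
        {p : ℝ × (Fin k → ℝ) | p.2 ∈ B ∧ p.1 ∈ F p.2} := rfl
  rw [h1, mp_split.measure_preimage hD.nullMeasurableSet, Measure.volume_eq_prod,
    Measure.prod_apply_symm hD]
  have h2 : ∀ y : Fin k → ℝ, volume ((fun x => (x, y)) ⁻¹'
      {p : ℝ × (Fin k → ℝ) | p.2 ∈ B ∧ p.1 ∈ F p.2}) = B.indicator (fun _ => c) y := by
    intro y
    by_cases hy : y ∈ B
    · rw [indicator_of_mem hy, ← hF y]
      congr 1
      ext s
      simp [hy]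
    · rw [indicator_of_notMem hy]
      have : ((fun x => (x, y)) ⁻¹' {p : ℝ × (Fin k → ℝ) | p.2 ∈ B ∧ p.1 ∈ F p.2}) = ∅ := by
        ext s
        simp [hy]
      rw [this, measure_empty]
  rw [lintegral_congr h2, lintegral_indicator hB, setLIntegral_const]

theorem volume_slab {B : Set (Fin k → ℝ)} (hB : MeasurableSet B) {g : (Fin k → ℝ) → ℝ}
    (hg : Continuous g) (r : ℝ) :
    volume {x : EuclideanSpace ℝ (Fin (k + 1)) | uu x ∈ B ∧ x 0 ∈ Ioo (g (uu x) - r) (g (uu x))} =
      ENNReal.ofReal r * volume B := by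
  refine volume_fibred hB (F := fun y => Ioo (g y - r) (g y)) (fun y => ?_) ?_
  · rw [Real.volume_Ioo]
    congr 1
    ring
  · refine (measurable_snd hB).inter ?_
    exact ((isOpen_lt (f := fun p : ℝ × (Fin k → ℝ) => g p.2 - r) (g := fun p => p.1)
      (by fun_prop) (by fun_prop)).inter (isOpen_lt (f := fun p : ℝ × (Fin k → ℝ) => p.1)
      (g := fun p => g p.2) (by fun_prop) (by fun_prop))).measurableSet

theorem volume_tube {B : Set (Fin k → ℝ)} (hB : MeasurableSet B) {g : (Fin k → ℝ) → ℝ}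
    (hg : Continuous g) (r : ℝ) :
    volume {x : EuclideanSpace ℝ (Fin (k + 1)) | uu x ∈ B ∧ x 0 ∈ Icc (g (uu x) - r) (g (uu x) + r)} =
      ENNReal.ofReal (2 * r) * volume B := by
  refine volume_fibred hB (F := fun y => Icc (g y - r) (g y + r)) (fun y => ?_) ?_
  · rw [Real.volume_Icc]
    congr 1
    ring
  · refine (measurable_snd hB).inter ?_
    exact ((isClosed_le (f := fun p : ℝ × (Fin k → ℝ) => g p.2 - r) (g := fun p => p.1)
      (by fun_prop) (by fun_prop)).inter (isClosed_le (f := fun p : ℝ × (Fin k → ℝ) => p.1)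
      (g := fun p => g p.2 + r) (by fun_prop) (by fun_prop))).measurableSet

/-- the tube of a simplex with vertices `q`: vertical distance at most `R / J` -/
def TT (q : Fin (k + 1) → EuclideanSpace ℝ (Fin (k + 1))) (R : ℝ) :
    Set (EuclideanSpace ℝ (Fin (k + 1))) :=
  {x | ∃ t : Fin k → ℝ, (∀ i, 0 ≤ bary t i) ∧ uu (UU q t) = uu x ∧
    |x 0 - UU q t 0| * JJ (fun i => uu (q i)) ≤ R}

theorem uu_UU (q : Fin (k + 1) → EuclideanSpace ℝ (Fin (k + 1))) (t : Fin k → ℝ) :
    uu (UU q t) = UU (fun i => uu (q i)) t := by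
  unfold UU
  rw [uu_sum]
  exact Finset.sum_congr rfl fun i _ => uu_smul _ _

/-- height of the simplex with vertices `q` over `y` -/
noncomputable def ht (q : Fin (k + 1) → EuclideanSpace ℝ (Fin (k + 1))) (y : Fin k → ℝ) : ℝ :=
  ∑ i, bc (fun i => uu (q i)) y i * q i 0

theorem UU_zero (q : Fin (k + 1) → EuclideanSpace ℝ (Fin (k + 1))) (t : Fin k → ℝ) :
    UU q t 0 = ∑ i, bary t i * q i 0 := by
  unfold UU
  simp

@[fun_prop]
theorem continuous_ht (q : Fin (k + 1) → EuclideanSpace ℝ (Fin (k + 1))) : Continuous (ht q) := by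
  unfold ht
  fun_prop

theorem ht_comb (q : Fin (k + 1) → EuclideanSpace ℝ (Fin (k + 1))) (x y : Fin k → ℝ) {a b : ℝ}
    (hab : a + b = 1) : ht q (a • x + b • y) = a * ht q x + b * ht q y := by
  unfold ht
  rw [Finset.mul_sum, Finset.mul_sum, ← Finset.sum_add_distrib]
  refine Finset.sum_congr rfl fun i _ => ?_
  rw [bc_comb _ x y hab]
  ring

theorem UU_zero_eq_ht {q : Fin (k + 1) → EuclideanSpace ℝ (Fin (k + 1))}
    (hq : 0 < JJ (fun i => uu (q i))) (t : Fin k → ℝ) :
    UU q t 0 = ht q (UU (fun i => uu (q i)) t) := by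
  rw [UU_zero, ht, bc, co_UU hq]

theorem volume_TT_le (q : Fin (k + 1) → EuclideanSpace ℝ (Fin (k + 1))) {R : ℝ}
    (hR : 0 ≤ R) : volume (TT q R) ≤ ENNReal.ofReal (2 * R) := by
  rcases (JJ_nonneg (fun i => uu (q i))).lt_or_eq with hq | hq
  · set J := JJ (fun i => uu (q i)) with hJ
    have hsub : TT q R ⊆ {x : EuclideanSpace ℝ (Fin (k + 1)) |
        uu x ∈ UU (fun i => uu (q i)) '' {t | ∀ i, 0 ≤ bary t i} ∧
        x 0 ∈ Icc (ht q (uu x) - R / J) (ht q (uu x) + R / J)} := by
      rintro x ⟨t, ht0, h1, h2⟩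
      rw [uu_UU] at h1
      refine ⟨⟨t, ht0, h1⟩, ?_⟩
      rw [UU_zero_eq_ht hq, h1] at h2
      have h3 : |x 0 - ht q (uu x)| ≤ R / J := by rwa [le_div_iff₀ hq]
      rw [abs_le] at h3
      constructor <;> linarith [h3.1, h3.2]
    refine (measure_mono hsub).trans ?_
    have hcomp : IsCompact (UU (fun i => uu (q i)) '' {t : Fin k → ℝ | ∀ i, 0 ≤ bary t i}) := by
      refine isCompact_simplex.image ?_
      unfold UU
      fun_prop
    rw [volume_tube hcomp.isClosed.measurableSet (continuous_ht q), volume_image_UU, ← hJ,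
      ← mul_assoc, ← ENNReal.ofReal_mul (by positivity)]
    have h4 : 2 * (R / J) * J = 2 * R := by field_simp
    rw [h4]
    calc ENNReal.ofReal (2 * R) * volume {t : Fin k → ℝ | ∀ i, 0 ≤ bary t i}
        ≤ ENNReal.ofReal (2 * R) * 1 := by
          gcongr
          exact volume_simplex_le_one
      _ = _ := mul_one _
  · have hsub : TT q R ⊆ (fun x : EuclideanSpace ℝ (Fin (k + 1)) => (x 0, uu x)) ⁻¹'
        (univ ×ˢ (UU (fun i => uu (q i)) '' {t : Fin k → ℝ | ∀ i, 0 ≤ bary t i})) := by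
      rintro x ⟨t, ht0, h1, h2⟩
      rw [uu_UU] at h1
      exact ⟨mem_univ _, t, ht0, h1⟩
    refine (measure_mono hsub).trans ?_
    have hcomp : IsCompact (UU (fun i => uu (q i)) '' {t : Fin k → ℝ | ∀ i, 0 ≤ bary t i}) := by
      refine isCompact_simplex.image ?_
      unfold UU
      fun_prop
    have hz : volume (UU (fun i => uu (q i)) '' {t : Fin k → ℝ | ∀ i, 0 ≤ bary t i}) = 0 := by
      rw [volume_image_UU, ← hq]
      simp
    rw [mp_split.measure_preimage
      (MeasurableSet.univ.prod hcomp.isClosed.measurableSet).nullMeasurableSet,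
      Measure.volume_eq_prod, Measure.prod_prod, hz, mul_zero]
    exact zero_le

end Pool.Agent.Lib.BeerIndex
end

section

/-!
# MP_d216ef_co: the two top faces of an octahedral cycle (Lemma G)
-/

set_option autoImplicit false

namespace Pool.Agent.Lib.BeerIndex

open Set MeasureTheory Topology Filter
open scoped ENNReal

variable {k : ℕ}

/-- vertices of the face `b` -/
def fv (a : Fin (k + 1) → Bool → EuclideanSpace ℝ (Fin (k + 1))) (b : Fin (k + 1) → Bool) :
    Fin (k + 1) → EuclideanSpace ℝ (Fin (k + 1)) := fun i => a i (b i)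

/-- projected vertices of the face `b` -/
def pv (a : Fin (k + 1) → Bool → EuclideanSpace ℝ (Fin (k + 1))) (b : Fin (k + 1) → Bool) :
    Fin (k + 1) → Fin k → ℝ := fun i => uu (a i (b i))

/-- no other face is just below the face `b` over `y` -/
def Bad (a : Fin (k + 1) → Bool → EuclideanSpace ℝ (Fin (k + 1))) (r : ℝ) (b : Fin (k + 1) → Bool)
    (ι : (Fin (k + 1) → Bool) → Option (Fin (k + 1))) : Set (Fin k → ℝ) :=
  {y | (∀ i, 0 < bc (pv a b) y i) ∧ ∀ b', b' ≠ b →
    (ι b' = none → ht (fv a b') y + r < ht (fv a b) y) ∧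
    (∀ i, ι b' = some i → bc (pv a b') y i < 0)}

theorem conv_lt {a b x y z w : ℝ} (ha : 0 ≤ a) (hb : 0 ≤ b) (hab : a + b = 1) (h1 : x < z)
    (h2 : y < w) : a * x + b * y < a * z + b * w := by
  rcases ha.eq_or_lt with h | h
  · have hb1 : b = 1 := by linarith
    rw [← h, hb1]
    linarith
  · have h3 : a * x < a * z := by nlinarith
    have h4 : b * y ≤ b * w := by nlinarith
    linarith

theorem measurableSet_Bad (a : Fin (k + 1) → Bool → EuclideanSpace ℝ (Fin (k + 1))) (r : ℝ)
    (b : Fin (k + 1) → Bool) (ι : (Fin (k + 1) → Bool) → Option (Fin (k + 1))) :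
    MeasurableSet (Bad a r b ι) := by
  have h : Bad a r b ι = (⋂ i, {y | 0 < bc (pv a b) y i}) ∩ ⋂ b' : Fin (k + 1) → Bool, ⋂ _ : b' ≠ b,
      ((⋂ _ : ι b' = none, {y | ht (fv a b') y + r < ht (fv a b) y}) ∩
        ⋂ i, ⋂ _ : ι b' = some i, {y | bc (pv a b') y i < 0}) := by
    ext y
    simp [Bad]
  rw [h]
  refine MeasurableSet.inter (MeasurableSet.iInter fun i => ?_)
    (MeasurableSet.iInter fun b' => MeasurableSet.iInter fun _ => MeasurableSet.inter
      (MeasurableSet.iInter fun _ => ?_) (MeasurableSet.iInter fun i => MeasurableSet.iInter fun _ => ?_))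
  · exact (isOpen_lt (by fun_prop) (by fun_prop)).measurableSet
  · exact (isOpen_lt (by fun_prop) (by fun_prop)).measurableSet
  · exact (isOpen_lt (by fun_prop) (by fun_prop)).measurableSet

/-- the slab below the face `b` over `Bad` -/
def slab (a : Fin (k + 1) → Bool → EuclideanSpace ℝ (Fin (k + 1))) (r : ℝ) (b : Fin (k + 1) → Bool)
    (ι : (Fin (k + 1) → Bool) → Option (Fin (k + 1))) : Set (EuclideanSpace ℝ (Fin (k + 1))) :=
  {x | uu x ∈ Bad a r b ι ∧ x 0 ∈ Ioo (ht (fv a b) (uu x) - r) (ht (fv a b) (uu x))}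

theorem convex_slab (a : Fin (k + 1) → Bool → EuclideanSpace ℝ (Fin (k + 1))) (r : ℝ)
    (b : Fin (k + 1) → Bool) (ι : (Fin (k + 1) → Bool) → Option (Fin (k + 1))) :
    Convex ℝ (slab a r b ι) := by
  intro x hx y hy s t hs ht' hst
  obtain ⟨⟨hx1, hx2⟩, hx3, hx4⟩ := hx
  obtain ⟨⟨hy1, hy2⟩, hy3, hy4⟩ := hy
  have e1 : uu (s • x + t • y) = s • uu x + t • uu y := rfl
  have e2 : (s • x + t • y) 0 = s * x 0 + t * y 0 := rfl
  refine ⟨⟨fun i => ?_, fun b' hb' => ⟨fun h => ?_, fun i h => ?_⟩⟩, ?_, ?_⟩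
  · rw [e1, bc_comb _ _ _ hst]
    have := conv_lt hs ht' hst (hx1 i) (hy1 i)
    linarith
  · rw [e1, ht_comb _ _ _ hst, ht_comb _ _ _ hst]
    have := conv_lt hs ht' hst ((hx2 b' hb').1 h) ((hy2 b' hb').1 h)
    have h5 : s * r + t * r = r := by rw [← add_mul, hst, one_mul]
    linarith
  · rw [e1, bc_comb _ _ _ hst]
    have := conv_lt hs ht' hst ((hx2 b' hb').2 i h) ((hy2 b' hb').2 i h)
    linarith
  · rw [e1, e2, ht_comb _ _ _ hst]
    have := conv_lt hs ht' hst hx3 hy3
    have h5 : s * r + t * r = r := by rw [← add_mul, hst, one_mul]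
    linarith
  · rw [e1, e2, ht_comb _ _ _ hst]
    exact conv_lt hs ht' hst hx4 hy4

/-- the slab lies in the p-component -/
theorem slab_subset (a : Fin (k + 1) → Bool → EuclideanSpace ℝ (Fin (k + 1)))
    {P : Set (EuclideanSpace ℝ (Fin (k + 1)))}
    (hnull : ∀ f : C(Metric.sphere (0 : EuclideanSpace ℝ (Fin (k + 1))) 1, P), f.Nullhomotopic)
    (hP : ∀ w, n1 w = 1 → ff a w ∈ P) (hJ : ∀ b, 0 < JJ (pv a b)) (r : ℝ)
    (b : Fin (k + 1) → Bool) (ι : (Fin (k + 1) → Bool) → Option (Fin (k + 1))) :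
    slab a r b ι ⊆ P := by
  rintro x ⟨⟨h1, h2⟩, h3, h4⟩
  set y := uu x with hy
  set e : EuclideanSpace ℝ (Fin (k + 1)) := EuclideanSpace.single 0 1 with he
  have hue : uu e = 0 := by
    funext i
    simp [he]
  have he0 : e 0 = 1 := by simp [he]
  set w0 : EuclideanSpace ℝ (Fin (k + 1)) :=
    WithLp.toLp 2 fun i => (if b i = true then 1 else -1) * bc (pv a b) y i with hw0
  have hw0i : ∀ i, w0 i = (if b i = true then 1 else -1) * bc (pv a b) y i := fun i => rfl
  have habs : ∀ i, |w0 i| = bc (pv a b) y i := by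
    intro i
    rw [hw0i]
    split_ifs
    · rw [one_mul, abs_of_pos (h1 i)]
    · rw [neg_one_mul, abs_neg, abs_of_pos (h1 i)]
  have hn1 : n1 w0 = 1 := by
    unfold n1
    rw [Finset.sum_congr rfl fun i _ => habs i, sum_bc]
  have hsgn : ∀ i, (b i = true → 0 < w0 i) ∧ (b i = false → w0 i < 0) := by
    intro i
    rw [hw0i]
    refine ⟨fun h => ?_, fun h => ?_⟩
    · rw [if_pos h, one_mul]
      exact h1 i
    · rw [h]
      simpa using h1 i
  have hne : ∀ i, w0 i ≠ 0 := by
    intro i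
    have := h1 i
    rw [← habs i] at this
    exact abs_pos.1 this
  have hff : ∀ (w : EuclideanSpace ℝ (Fin (k + 1))) (b' : Fin (k + 1) → Bool),
      (∀ i, (b' i = true → 0 ≤ w i) ∧ (b' i = false → w i ≤ 0)) →
      ff a w = ∑ i, |w i| • fv a b' i := fun w b' h => ff_eq a w b' h
  have huff : ∀ (w : EuclideanSpace ℝ (Fin (k + 1))) (b' : Fin (k + 1) → Bool),
      uu (∑ i, |w i| • fv a b' i) = ∑ i, |w i| • pv a b' i := by
    intro w b'
    rw [uu_sum]
    rfl
  have h0ff : ∀ (w : EuclideanSpace ℝ (Fin (k + 1))) (b' : Fin (k + 1) → Bool),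
      (∑ i, |w i| • fv a b' i) 0 = ∑ i, |w i| * fv a b' i 0 := by
    intro w b'
    simp
  have hffw0 : ff a w0 = ∑ i, |w0 i| • fv a b i :=
    hff w0 b fun i => ⟨fun h => ((hsgn i).1 h).le, fun h => ((hsgn i).2 h).le⟩
  refine mem_of_ray (d := k + 1) (by simp) a hnull hP (e := e) hn1 hne
    (r0 := ht (fv a b) y - x 0) (by linarith) ?_ ?_ ?_
  · rw [hffw0]
    ext i
    refine Fin.cases ?_ (fun j => ?_) i
    · rw [h0ff]
      simp only [habs, PiLp.add_apply, PiLp.smul_apply, he0, smul_eq_mul, mul_one]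
      have : ∑ i, bc (pv a b) y i * fv a b i 0 = ht (fv a b) y := rfl
      rw [this]
      ring
    · have h5 := congrFun (huff w0 b) j
      simp only [habs, sum_bc_smul (hJ b), uu_apply] at h5
      simp only [habs, PiLp.add_apply, PiLp.smul_apply]
      rw [h5, hy]
      have h6 : e j.succ = 0 := congrFun hue j
      rw [h6, smul_zero, add_zero]
      rfl
  · intro w hw ρ hρ hwx
    set b' : Fin (k + 1) → Bool := fun i => decide (0 ≤ w i) with hb'
    have hs' : ∀ i, (b' i = true → 0 ≤ w i) ∧ (b' i = false → w i ≤ 0) := fun i =>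
      ⟨fun h => of_decide_eq_true h, fun h => (not_le.1 (of_decide_eq_false h)).le⟩
    have h5 : (fun i => |w i|) = bc (pv a b') y := by
      refine eq_bc (hJ b') hw ?_
      rw [← huff w b', ← hff w b' hs', hwx, uu_add, uu_smul, hue, smul_zero, add_zero]
    have h5' : ∀ i, |w i| = bc (pv a b') y i := fun i => congrFun h5 i
    have h6 : ht (fv a b') y = x 0 + ρ := by
      have h7 : ff a w 0 = x 0 + ρ := by
        rw [hwx]
        simp [he0]
      rw [← h7, hff w b' hs', h0ff]
      exact Finset.sum_congr rfl fun i _ => by rw [h5' i]; rfl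
    have hbb : b' = b := by
      by_contra hbb
      obtain ⟨h8, h9⟩ := h2 b' hbb
      cases hι : ι b' with
      | none =>
        have := h8 hι
        linarith
      | some i =>
        have := h9 i hι
        rw [← h5' i] at this
        exact absurd (abs_nonneg (w i)) (not_le.2 this)
    rw [hbb] at h5' hs'
    ext i
    rw [hw0i, ← h5' i]
    cases hbi : b i with
    | true =>
      rw [if_pos rfl, one_mul, abs_of_nonneg ((hs' i).1 hbi)]
    | false =>
      rw [if_neg (by simp), abs_of_nonpos ((hs' i).2 hbi)]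
      ring
  · intro c hc ρ hcρ
    have hdec : ∀ i, decide (0 < w0 i) = b i := by
      intro i
      cases hbi : b i with
      | true => exact decide_eq_true ((hsgn i).1 hbi)
      | false => exact decide_eq_false (not_lt.2 ((hsgn i).2 hbi).le)
    simp only [hdec] at hcρ
    have hc0 : c = 0 := by
      refine eq_zero_of_comb (hJ b) hc ?_
      have h5 := congrArg uu hcρ
      rw [uu_sum, uu_smul, hue, smul_zero] at h5
      exact h5
    refine ⟨hc0, ?_⟩
    rw [hc0] at hcρ
    have h6 := congrArg (fun z : EuclideanSpace ℝ (Fin (k + 1)) => z 0) hcρ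
    simpa [he0] using h6.symm

theorem volume_Bad_le (a : Fin (k + 1) → Bool → EuclideanSpace ℝ (Fin (k + 1)))
    {S P : Set (EuclideanSpace ℝ (Fin (k + 1)))} (hPS : P ⊆ S)
    (hnull : ∀ f : C(Metric.sphere (0 : EuclideanSpace ℝ (Fin (k + 1))) 1, P), f.Nullhomotopic)
    (hP : ∀ w, n1 w = 1 → ff a w ∈ P) (hJ : ∀ b, 0 < JJ (pv a b)) (r : ℝ)
    (b : Fin (k + 1) → Bool) (ι : (Fin (k + 1) → Bool) → Option (Fin (k + 1))) :
    ENNReal.ofReal r * volume (Bad a r b ι) ≤ supc S := by
  rw [← volume_slab (measurableSet_Bad a r b ι) (continuous_ht (fv a b)) r]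
  exact le_supc (convex_slab a r b ι) ((slab_subset a hnull hP hJ r b ι).trans hPS)

/-- the parameters `t` for which the point of the face `b₁` is in the tube of the face `b₂` -/
def GG (a : Fin (k + 1) → Bool → EuclideanSpace ℝ (Fin (k + 1))) (κ R : ℝ)
    (b₁ b₂ : Fin (k + 1) → Bool) : Set (Fin k → ℝ) :=
  {t | (∀ i, κ ≤ bary t i) ∧ UU (fv a b₁) t ∈ TT (fv a b₂) R}

/-- covering of a face by the exceptional sets and the good sets -/
theorem cover (a : Fin (k + 1) → Bool → EuclideanSpace ℝ (Fin (k + 1)))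
    (hJ : ∀ b, 0 < JJ (pv a b)) {b₀ : Fin (k + 1) → Bool} (hb₀ : ∀ b, JJ (pv a b) ≤ JJ (pv a b₀))
    {R κ : ℝ} (hR : 0 < R) :
    UU (pv a b₀) '' {t | ∀ i, 0 < bary t i} ⊆
      ((⋃ b, ⋃ ι, Bad a (R / JJ (pv a b₀)) b ι) ∪
      (⋃ b, UU (pv a b) '' {t | (∀ i, 0 ≤ bary t i) ∧ ∃ i, bary t i < κ})) ∪
      ((⋃ b, ⋃ i, UU (pv a b) '' {t | bary t i = 0}) ∪
      (⋃ b₁, ⋃ b₂, ⋃ _ : b₂ ≠ b₁, UU (pv a b₁) '' GG a κ R b₁ b₂)) := by
  classical
  rintro y ⟨t, ht0, rfl⟩
  set y := UU (pv a b₀) t with hy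
  set r := R / JJ (pv a b₀) with hr
  by_contra hc
  simp only [mem_union, not_or, mem_iUnion, not_exists] at hc
  obtain ⟨⟨hc1, hc2⟩, hc3, hc4⟩ := hc
  have hz : ∀ b i, bc (pv a b) y i ≠ 0 := by
    intro b i h
    exact hc3 b i ⟨co (pv a b) y, h, UU_co (hJ b) y⟩
  set T : Finset (Fin (k + 1) → Bool) :=
    Finset.univ.filter fun b => ∀ i, 0 < bc (pv a b) y i with hT
  have hb₀T : b₀ ∈ T := by
    simp only [hT, Finset.mem_filter, Finset.mem_univ, true_and]
    intro i
    rw [bc, hy, co_UU (hJ b₀)]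
    exact ht0 i
  obtain ⟨b₁, hb₁T, hb₁⟩ := Finset.exists_max_image T (fun b => ht (fv a b) y) ⟨b₀, hb₀T⟩
  have hb₁pos : ∀ i, 0 < bc (pv a b₁) y i := (Finset.mem_filter.1 hb₁T).2
  -- the choice function
  have hch : ∀ b', ∃ o : Option (Fin (k + 1)), b' ≠ b₁ →
      (o = none → ht (fv a b') y + r < ht (fv a b₁) y) ∧
      (∀ i, o = some i → bc (pv a b') y i < 0) := by
    intro b'
    by_cases hbb : b' = b₁
    · exact ⟨none, fun h => absurd hbb h⟩
    by_cases hb'T : b' ∈ T
    · refine ⟨none, fun _ => ⟨fun _ => ?_, fun i h => by simp at h⟩⟩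
      by_contra hlt
      push Not at hlt
      refine hc4 b₁ b' hbb ⟨co (pv a b₁) y, ⟨fun i => ?_, ?_⟩, UU_co (hJ b₁) y⟩
      · by_contra hκ
        push Not at hκ
        exact hc2 b₁ ⟨co (pv a b₁) y, ⟨fun i => (hb₁pos i).le, i, hκ⟩, UU_co (hJ b₁) y⟩
      · refine ⟨co (pv a b') y, fun i => ((Finset.mem_filter.1 hb'T).2 i).le, ?_, ?_⟩
        · rw [uu_UU, uu_UU]
          change UU (pv a b') (co (pv a b') y) = UU (pv a b₁) (co (pv a b₁) y)
          rw [UU_co (hJ b') y, UU_co (hJ b₁) y]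
        · have e1 : UU (fv a b₁) (co (pv a b₁) y) 0 = ht (fv a b₁) y := by
            rw [UU_zero_eq_ht (q := fv a b₁) (hJ b₁)]
            change ht (fv a b₁) (UU (pv a b₁) (co (pv a b₁) y)) = _
            rw [UU_co (hJ b₁) y]
          have e2 : UU (fv a b') (co (pv a b') y) 0 = ht (fv a b') y := by
            rw [UU_zero_eq_ht (q := fv a b') (hJ b')]
            change ht (fv a b') (UU (pv a b') (co (pv a b') y)) = _
            rw [UU_co (hJ b') y]
          rw [e1, e2]
          have h5 := hb₁ b' hb'T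
          have h6 : |ht (fv a b₁) y - ht (fv a b') y| ≤ r := by
            rw [abs_le]
            have hr0 : 0 < r := div_pos hR (hJ b₀)
            constructor <;> linarith
          have h7 : JJ (fun i => uu (fv a b' i)) ≤ JJ (pv a b₀) := hb₀ b'
          calc |ht (fv a b₁) y - ht (fv a b') y| * JJ (fun i => uu (fv a b' i))
              ≤ r * JJ (pv a b₀) := by
                have hr0 : 0 < r := div_pos hR (hJ b₀)
                have := JJ_nonneg (fun i => uu (fv a b' i))
                gcongr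
            _ = R := by
                rw [hr]
                have := hJ b₀
                field_simp
    · have h5 : ∃ i, ¬ 0 < bc (pv a b') y i := by
        by_contra hc5
        push Not at hc5
        exact hb'T (Finset.mem_filter.2 ⟨Finset.mem_univ _, hc5⟩)
      obtain ⟨i, hi⟩ := h5
      refine ⟨some i, fun _ => ⟨fun h => by simp at h, fun i' h => ?_⟩⟩
      have hii : i = i' := by simpa using h
      rw [← hii]
      exact lt_of_le_of_ne (not_lt.1 hi) (hz b' i)
  choose ι hι using hch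
  exact hc1 b₁ ι ⟨hb₁pos, fun b' hb' => hι b' hb'⟩

end Pool.Agent.Lib.BeerIndex
end

section

/-!
# MP_d216ef_co: Lemma G, quantitative form
-/

set_option autoImplicit false

namespace Pool.Agent.Lib.BeerIndex

open Set MeasureTheory Topology Filter
open scoped ENNReal

variable {k : ℕ}

/-- ordered pairs of distinct faces -/
def pairs (k : ℕ) : Finset ((Fin (k + 1) → Bool) × (Fin (k + 1) → Bool)) :=
  Finset.univ.filter fun p => p.2 ≠ p.1

/-- **Lemma G.** -/
theorem lemmaG (hk : 1 ≤ k) : ∃ A κ : ℝ, 0 < A ∧ 0 < κ ∧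
    ∀ (a : Fin (k + 1) → Bool → EuclideanSpace ℝ (Fin (k + 1)))
      (S P : Set (EuclideanSpace ℝ (Fin (k + 1)))), P ⊆ S →
      (∀ f : C(Metric.sphere (0 : EuclideanSpace ℝ (Fin (k + 1))) 1, P), f.Nullhomotopic) →
      (∀ w, n1 w = 1 → ff a w ∈ P) → (∀ b, 0 < JJ (pv a b)) →
      ∀ M : ℝ, 0 < M → supc S ≤ ENNReal.ofReal M →
      volume {t : Fin k → ℝ | ∀ i, 0 < bary t i} / 2 ≤
        ∑ p ∈ pairs k, volume (GG a κ (A * M) p.1 p.2) := by
  classical
  set v : ℝ≥0∞ := volume {t : Fin k → ℝ | ∀ i, 0 < bary t i} with hv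
  have hv0 : v ≠ 0 := volume_open_simplex_pos.ne'
  have hvT : v ≠ ⊤ := ne_of_lt (lt_of_le_of_lt ((measure_mono open_simplex_subset).trans
    volume_simplex_le_one) ENNReal.one_lt_top)
  set N : ℕ := Fintype.card (Fin (k + 1) → Bool) *
    Fintype.card ((Fin (k + 1) → Bool) → Option (Fin (k + 1))) with hN
  have hNpos : 0 < N := Nat.mul_pos Fintype.card_pos Fintype.card_pos
  have hNr : (0 : ℝ) < N := by exact_mod_cast hNpos
  have hvr : 0 < v.toReal := ENNReal.toReal_pos hv0 hvT
  set N2 : ℕ := Fintype.card (Fin (k + 1) → Bool) with hN2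
  have hN2pos : 0 < N2 := Fintype.card_pos
  obtain ⟨κ, hκ, hsh⟩ := exists_shallow (k := k) hk (δ := v / 4 / N2) (by
    refine ENNReal.div_pos (ENNReal.div_pos hv0 (by norm_num)).ne' (ENNReal.natCast_ne_top _))
  set A : ℝ := 4 * N / v.toReal with hA
  have hA0 : 0 < A := by positivity
  refine ⟨A, κ, hA0, hκ, ?_⟩
  intro a S P hPS hnull hP hJ M hM hSM
  obtain ⟨b₀, -, hb₀⟩ := Finset.exists_max_image Finset.univ (fun b => JJ (pv a b))
    (Finset.univ_nonempty (α := Fin (k + 1) → Bool))
  have hb₀' : ∀ b, JJ (pv a b) ≤ JJ (pv a b₀) := fun b => hb₀ b (Finset.mem_univ b)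
  have hR : 0 < A * M := mul_pos hA0 hM
  have hcov := cover a hJ hb₀' (κ := κ) hR
  set J0 : ℝ≥0∞ := ENNReal.ofReal (JJ (pv a b₀)) with hJ0
  have hJ00 : J0 ≠ 0 := (ENNReal.ofReal_pos.2 (hJ b₀)).ne'
  have hJ0T : J0 ≠ ⊤ := ENNReal.ofReal_ne_top
  have hJle : ∀ b, ENNReal.ofReal (JJ (pv a b)) ≤ J0 := fun b => ENNReal.ofReal_le_ofReal (hb₀' b)
  -- the bad sets
  have hr : 0 < A * M / JJ (pv a b₀) := div_pos hR (hJ b₀)
  have hBad : ∀ b ι, volume (Bad a (A * M / JJ (pv a b₀)) b ι) ≤ J0 * ENNReal.ofReal (1 / A) := by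
    intro b ι
    have h1 := (volume_Bad_le a hPS hnull hP hJ (A * M / JJ (pv a b₀)) b ι).trans hSM
    rw [mul_comm] at h1
    have h2 := (ENNReal.le_div_iff_mul_le (Or.inl (ENNReal.ofReal_pos.2 hr).ne')
      (Or.inl ENNReal.ofReal_ne_top)).2 h1
    rw [← ENNReal.ofReal_div_of_pos hr] at h2
    rw [hJ0, ← ENNReal.ofReal_mul (hJ b₀).le]
    refine h2.trans (le_of_eq ?_)
    congr 1
    have := hJ b₀
    field_simp
  have hBadsum : volume (⋃ b, ⋃ ι, Bad a (A * M / JJ (pv a b₀)) b ι) ≤ J0 * (v / 4) := by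
    calc volume (⋃ b, ⋃ ι, Bad a (A * M / JJ (pv a b₀)) b ι)
        ≤ ∑ b, volume (⋃ ι, Bad a (A * M / JJ (pv a b₀)) b ι) := measure_iUnion_fintype_le _ _
      _ ≤ ∑ b : Fin (k + 1) → Bool, ∑ ι : (Fin (k + 1) → Bool) → Option (Fin (k + 1)),
            volume (Bad a (A * M / JJ (pv a b₀)) b ι) :=
          Finset.sum_le_sum fun b _ => measure_iUnion_fintype_le _ _
      _ ≤ ∑ b : Fin (k + 1) → Bool, ∑ ι : (Fin (k + 1) → Bool) → Option (Fin (k + 1)),
            J0 * ENNReal.ofReal (1 / A) :=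
          Finset.sum_le_sum fun b _ => Finset.sum_le_sum fun ι _ => hBad b ι
      _ = J0 * (N * ENNReal.ofReal (1 / A)) := by
          rw [Finset.sum_const, Finset.sum_const, Finset.card_univ, Finset.card_univ, smul_smul,
            ← hN, nsmul_eq_mul]
          ring
      _ = J0 * (v / 4) := by
          congr 1
          have h1 : (N : ℝ≥0∞) = ENNReal.ofReal N := by simp
          rw [h1, ← ENNReal.ofReal_mul hNr.le]
          have h2 : (N : ℝ) * (1 / A) = v.toReal / 4 := by
            rw [hA]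
            field_simp
          rw [h2, ENNReal.ofReal_div_of_pos (by norm_num), ENNReal.ofReal_toReal hvT]
          norm_num
  have hShsum : volume (⋃ b, UU (pv a b) '' {t | (∀ i, 0 ≤ bary t i) ∧ ∃ i, bary t i < κ}) ≤
      J0 * (v / 4) := by
    calc volume (⋃ b, UU (pv a b) '' {t | (∀ i, 0 ≤ bary t i) ∧ ∃ i, bary t i < κ})
        ≤ ∑ b, volume (UU (pv a b) '' {t | (∀ i, 0 ≤ bary t i) ∧ ∃ i, bary t i < κ}) :=
          measure_iUnion_fintype_le _ _
      _ ≤ ∑ b : Fin (k + 1) → Bool, J0 * (v / 4 / N2) := by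
          refine Finset.sum_le_sum fun b _ => ?_
          rw [volume_image_UU]
          exact mul_le_mul' (hJle b) hsh
      _ = J0 * (v / 4) := by
          rw [Finset.sum_const, Finset.card_univ, nsmul_eq_mul, ← hN2]
          have h1 : (N2 : ℝ≥0∞) * (v / 4 / N2) = v / 4 :=
            ENNReal.mul_div_cancel (by exact_mod_cast hN2pos.ne') (ENNReal.natCast_ne_top _)
          rw [mul_left_comm, h1]
  have hzsum : volume (⋃ b, ⋃ i, UU (pv a b) '' {t : Fin k → ℝ | bary t i = 0}) = 0 := by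
    refine measure_iUnion_null fun b => measure_iUnion_null fun i => ?_
    rw [volume_image_UU, volume_bary_zero i hk, mul_zero]
  have hGsum : volume (⋃ b₁, ⋃ b₂, ⋃ _ : b₂ ≠ b₁, UU (pv a b₁) '' GG a κ (A * M) b₁ b₂) ≤
      J0 * ∑ p ∈ pairs k, volume (GG a κ (A * M) p.1 p.2) := by
    have h1 : (⋃ b₁, ⋃ b₂, ⋃ _ : b₂ ≠ b₁, UU (pv a b₁) '' GG a κ (A * M) b₁ b₂) =
        ⋃ p ∈ pairs k, UU (pv a p.1) '' GG a κ (A * M) p.1 p.2 := by
      ext y
      simp only [mem_iUnion, pairs, Finset.mem_filter, Finset.mem_univ, true_and, exists_prop,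
        Prod.exists]
    rw [h1, Finset.mul_sum]
    refine (measure_biUnion_finset_le _ _).trans (Finset.sum_le_sum fun p _ => ?_)
    rw [volume_image_UU]
    exact mul_le_mul' (hJle p.1) le_rfl
  have hmain : J0 * v ≤ J0 * (v / 2 + ∑ p ∈ pairs k, volume (GG a κ (A * M) p.1 p.2)) := by
    calc J0 * v = volume (UU (pv a b₀) '' {t | ∀ i, 0 < bary t i}) := by
          rw [volume_image_UU]
      _ ≤ _ := measure_mono hcov
      _ ≤ _ := measure_union_le _ _
      _ ≤ _ := add_le_add (measure_union_le _ _) (measure_union_le _ _)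
      _ ≤ (J0 * (v / 4) + J0 * (v / 4)) +
          (0 + J0 * ∑ p ∈ pairs k, volume (GG a κ (A * M) p.1 p.2)) :=
          add_le_add (add_le_add hBadsum hShsum) (add_le_add hzsum.le hGsum)
      _ = J0 * (v / 2 + ∑ p ∈ pairs k, volume (GG a κ (A * M) p.1 p.2)) := by
          have h4 : v / 4 + v / 4 = v / 2 := by
            have : v / 4 = v / 2 / 2 := by
              rw [div_eq_mul_inv, div_eq_mul_inv, div_eq_mul_inv, mul_assoc,
                ← ENNReal.mul_inv (by norm_num) (by norm_num)]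
              norm_num
            rw [this, ENNReal.add_halves]
          rw [zero_add, ← mul_add, ← mul_add, h4]
  have h5 := (ENNReal.mul_le_mul_iff_right hJ00 hJ0T).1 hmain
  nth_rewrite 1 [← ENNReal.add_halves v] at h5
  refine (ENNReal.add_le_add_iff_left ?_).1 h5
  exact ENNReal.div_ne_top hvT (by norm_num)

end Pool.Agent.Lib.BeerIndex
end

section

/-!
# MP_d216ef_co: random faces are nondegenerate
-/

set_option autoImplicit false

namespace Pool.Agent.Lib.BeerIndex

open Set MeasureTheory Topology Filter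
open scoped ENNReal

variable {k : ℕ}

/-- `uu` as a linear map -/
def uuL (k : ℕ) : EuclideanSpace ℝ (Fin (k + 1)) →ₗ[ℝ] (Fin k → ℝ) where
  toFun := uu
  map_add' := uu_add
  map_smul' := uu_smul

/-- edge matrix with the columns outside `I` replaced by unit vectors -/
def NI (b : Fin (k + 1) → Bool) (I : Finset (Fin k))
    (ω : Fin (k + 1) × Bool → EuclideanSpace ℝ (Fin (k + 1))) : Matrix (Fin k) (Fin k) ℝ :=
  Matrix.of fun j i => if i ∈ I then uu (ω (i.succ, b i.succ)) j - uu (ω (0, b 0)) j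
    else if j = i then 1 else 0

theorem continuous_det_NI (b : Fin (k + 1) → Bool) (I : Finset (Fin k)) :
    Continuous fun ω => (NI b I ω).det := by
  refine Continuous.matrix_det ?_
  refine continuous_matrix fun j i => ?_
  simp only [NI, Matrix.of_apply]
  by_cases hi : i ∈ I
  · simp only [if_pos hi, uu_apply]
    fun_prop
  · simp only [if_neg hi]
    fun_prop

theorem NI_update (b : Fin (k + 1) → Bool) {I : Finset (Fin k)} {i : Fin k} (hi : i ∉ I)
    (ω : Fin (k + 1) × Bool → EuclideanSpace ℝ (Fin (k + 1))) (x : EuclideanSpace ℝ (Fin (k + 1))) :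
    NI b (insert i I) (Function.update ω (i.succ, b i.succ) x) =
      (NI b I ω).updateCol i (uu x - uu (ω (0, b 0))) := by
  ext j i'
  rw [Matrix.updateCol_apply]
  have h0 : ((0 : Fin (k + 1)), b 0) ≠ (i.succ, b i.succ) := by
    intro h
    exact (Fin.succ_ne_zero i) (Prod.ext_iff.1 h).1.symm
  by_cases hii : i' = i
  · subst hii
    rw [if_pos rfl]
    simp only [NI, Matrix.of_apply, Finset.mem_insert, true_or, if_true, Function.update_self,
      Function.update_of_ne h0, Pi.sub_apply]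
  · rw [if_neg hii]
    have h1 : (i'.succ, b i'.succ) ≠ (i.succ, b i.succ) := by
      intro h
      exact hii (Fin.succ_injective _ (Prod.ext_iff.1 h).1)
    simp only [NI, Matrix.of_apply, Finset.mem_insert, hii, false_or, Function.update_of_ne h0,
      Function.update_of_ne h1]

theorem ae_det_NI (μ : Measure (EuclideanSpace ℝ (Fin (k + 1)))) [IsProbabilityMeasure μ]
    (hμ : μ ≪ volume) (b : Fin (k + 1) → Bool) (I : Finset (Fin k)) :
    ∀ᵐ ω ∂(Measure.pi fun _ : Fin (k + 1) × Bool => μ), (NI b I ω).det ≠ 0 := by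
  classical
  induction I using Finset.induction_on with
  | empty =>
    refine Eventually.of_forall fun ω => ?_
    have : NI b ∅ ω = 1 := by
      ext j i
      simp [NI, Matrix.one_apply]
    rw [this, Matrix.det_one]
    exact one_ne_zero
  | insert i I hi ih =>
    have hm : MeasurableSet {ω : Fin (k + 1) × Bool → EuclideanSpace ℝ (Fin (k + 1)) |
        (NI b (insert i I) ω).det = 0} :=
      (isClosed_eq (continuous_det_NI b _) continuous_const).measurableSet
    have hf : Measurable ({ω : Fin (k + 1) × Bool → EuclideanSpace ℝ (Fin (k + 1)) |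
        (NI b (insert i I) ω).det = 0}.indicator (fun _ => (1 : ℝ≥0∞))) :=
      measurable_const.indicator hm
    have h1 := resample μ hf (i.succ, b i.succ)
    rw [lintegral_indicator_const hm 1, one_mul] at h1
    have h2 : (Measure.pi fun _ : Fin (k + 1) × Bool => μ)
        {ω | (NI b (insert i I) ω).det = 0} = 0 := by
      rw [← h1, lintegral_eq_zero_iff' ?_]
      · filter_upwards [ih] with ω hω
        -- the linear functional
        set φ : EuclideanSpace ℝ (Fin (k + 1)) →ₗ[ℝ] ℝ :=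
          (LinearMap.proj i ∘ₗ Matrix.cramer (NI b I ω)) ∘ₗ uuL k with hφ
        have hφx : ∀ x, φ x = ((NI b I ω).updateCol i (uu x)).det := fun x => by
          rw [hφ]
          simp only [LinearMap.comp_apply, LinearMap.proj_apply, Matrix.cramer_apply]
          rfl
        have hφ0 : φ ≠ 0 := by
          intro h
          have h3 := hφx (EuclideanSpace.single i.succ 1)
          rw [h, LinearMap.zero_apply] at h3
          have h4 : (NI b I ω).updateCol i (uu (EuclideanSpace.single i.succ (1 : ℝ))) =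
              NI b I ω := by
            ext j i'
            rw [Matrix.updateCol_apply]
            by_cases hii : i' = i
            · subst hii
              rw [if_pos rfl]
              simp only [NI, Matrix.of_apply, if_neg hi, uu_apply, PiLp.single_apply,
                Fin.succ_inj]
            · rw [if_neg hii]
          rw [h4] at h3
          exact hω h3.symm
        have h5 : ∀ x, ({ω : Fin (k + 1) × Bool → EuclideanSpace ℝ (Fin (k + 1)) |
            (NI b (insert i I) ω).det = 0}.indicator (fun _ => (1 : ℝ≥0∞))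
            (Function.update ω (i.succ, b i.succ) x)) =
            {x | φ x = φ (ω (0, b 0))}.indicator (fun _ => (1 : ℝ≥0∞)) x := by
          intro x
          have h6 : (NI b (insert i I) (Function.update ω (i.succ, b i.succ) x)).det =
              φ x - φ (ω (0, b 0)) := by
            rw [NI_update b hi, ← map_sub, hφx]
            rfl
          simp only [indicator, mem_ofPred_eq, h6, sub_eq_zero]
        have hmφ : MeasurableSet {x | φ x = φ (ω (0, b 0))} :=
          (isClosed_eq φ.continuous_of_finiteDimensional continuous_const).measurableSet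
        rw [lintegral_congr h5, lintegral_indicator_const hmφ 1, one_mul]
        exact hμ (volume_hyperplane volume φ hφ0 _)
      · refine (Measurable.lintegral_prod_right' (f := fun p : (Fin (k + 1) × Bool →
          EuclideanSpace ℝ (Fin (k + 1))) × EuclideanSpace ℝ (Fin (k + 1)) =>
          ({ω : Fin (k + 1) × Bool → EuclideanSpace ℝ (Fin (k + 1)) |
            (NI b (insert i I) ω).det = 0}.indicator (fun _ => (1 : ℝ≥0∞))
            (Function.update p.1 (i.succ, b i.succ) p.2))) (hf.comp ?_)).aemeasurable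
        exact measurable_update'
    rw [ae_iff]
    simpa using h2

theorem ae_JJ_pos (μ : Measure (EuclideanSpace ℝ (Fin (k + 1)))) [IsProbabilityMeasure μ]
    (hμ : μ ≪ volume) :
    ∀ᵐ ω ∂(Measure.pi fun _ : Fin (k + 1) × Bool => μ),
      ∀ b, 0 < JJ (pv (fun i c => ω (i, c)) b) := by
  rw [ae_all_iff]
  intro b
  filter_upwards [ae_det_NI μ hμ b Finset.univ] with ω hω
  have : NI b Finset.univ ω = mat (pv (fun i c => ω (i, c)) b) := by
    ext j i
    simp [NI, mat, pv]
  rw [JJ, ← this]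
  exact abs_pos.2 hω

end Pool.Agent.Lib.BeerIndex
end

section

/-!
# MP_d216ef_co: the counting step
-/

set_option autoImplicit false

namespace Pool.Agent.Lib.BeerIndex

open Set MeasureTheory Topology Filter
open scoped ENNReal

variable {k : ℕ}

/-- the configuration as a family indexed by faces -/
def cf (ω : Fin (k + 1) × Bool → EuclideanSpace ℝ (Fin (k + 1))) :
    Fin (k + 1) → Bool → EuclideanSpace ℝ (Fin (k + 1)) := fun i c => ω (i, c)

/-- the incidence relation of the point with parameter `t` of `b₁` and the tube of `b₂` -/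
def DD (R : ℝ) (b₁ b₂ : Fin (k + 1) → Bool) :
    Set ((Fin (k + 1) × Bool → EuclideanSpace ℝ (Fin (k + 1))) × (Fin k → ℝ)) :=
  {p | UU (fv (cf p.1) b₁) p.2 ∈ TT (fv (cf p.1) b₂) R}

theorem isClosed_DD (R : ℝ) (b₁ b₂ : Fin (k + 1) → Bool) : IsClosed (DD (k := k) R b₁ b₂) := by
  set Δ : Set (Fin k → ℝ) := {t | ∀ i, 0 ≤ bary t i} with hΔ
  have : CompactSpace Δ := isCompact_iff_compactSpace.1 isCompact_simplex
  set D' : Set (((Fin (k + 1) × Bool → EuclideanSpace ℝ (Fin (k + 1))) × (Fin k → ℝ)) × Δ) :=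
    {p | uu (UU (fv (cf p.1.1) b₂) (p.2 : Fin k → ℝ)) = uu (UU (fv (cf p.1.1) b₁) p.1.2) ∧
      |UU (fv (cf p.1.1) b₁) p.1.2 0 - UU (fv (cf p.1.1) b₂) (p.2 : Fin k → ℝ) 0| *
        JJ (fun i => uu (fv (cf p.1.1) b₂ i)) ≤ R} with hD'
  have hfv : ∀ (b : Fin (k + 1) → Bool) (i : Fin (k + 1)), Continuous
      fun ω : Fin (k + 1) × Bool → EuclideanSpace ℝ (Fin (k + 1)) => fv (cf ω) b i := by
    intro b i
    exact continuous_apply (i, b i)
  have hc1 : Continuous fun p : ((Fin (k + 1) × Bool → EuclideanSpace ℝ (Fin (k + 1))) ×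
      (Fin k → ℝ)) × Δ => UU (fv (cf p.1.1) b₂) (p.2 : Fin k → ℝ) := by
    unfold UU
    refine continuous_finsetSum _ fun i _ => ?_
    exact ((continuous_bary_apply i).comp (continuous_subtype_val.comp continuous_snd)).smul
      ((hfv b₂ i).comp (continuous_fst.comp continuous_fst))
  have hc2 : Continuous fun p : ((Fin (k + 1) × Bool → EuclideanSpace ℝ (Fin (k + 1))) ×
      (Fin k → ℝ)) × Δ => UU (fv (cf p.1.1) b₁) p.1.2 := by
    unfold UU
    refine continuous_finsetSum _ fun i _ => ?_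
    exact ((continuous_bary_apply i).comp (continuous_snd.comp continuous_fst)).smul
      ((hfv b₁ i).comp (continuous_fst.comp continuous_fst))
  have hc3 : Continuous fun p : ((Fin (k + 1) × Bool → EuclideanSpace ℝ (Fin (k + 1))) ×
      (Fin k → ℝ)) × Δ => JJ (fun i => uu (fv (cf p.1.1) b₂ i)) := by
    unfold JJ
    refine continuous_abs.comp (Continuous.matrix_det (continuous_matrix fun j i => ?_))
    simp only [mat, Matrix.of_apply]
    have h : ∀ i, Continuous fun p : ((Fin (k + 1) × Bool → EuclideanSpace ℝ (Fin (k + 1))) ×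
      (Fin k → ℝ)) × Δ => uu (fv (cf p.1.1) b₂ i) := fun i =>
      continuous_uu.comp ((hfv b₂ i).comp (continuous_fst.comp continuous_fst))
    exact ((continuous_apply j).comp (h i.succ)).sub ((continuous_apply j).comp (h 0))
  have h0 : Continuous fun x : EuclideanSpace ℝ (Fin (k + 1)) => x 0 := by fun_prop
  have hc4 : Continuous fun p : ((Fin (k + 1) × Bool → EuclideanSpace ℝ (Fin (k + 1))) ×
      (Fin k → ℝ)) × Δ => |UU (fv (cf p.1.1) b₁) p.1.2 0 -
        UU (fv (cf p.1.1) b₂) (p.2 : Fin k → ℝ) 0| * JJ (fun i => uu (fv (cf p.1.1) b₂ i)) :=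
    (continuous_abs.comp ((h0.comp hc2).sub (h0.comp hc1))).mul hc3
  have hD'c : IsClosed D' :=
    (isClosed_eq (continuous_uu.comp hc1) (continuous_uu.comp hc2)).and
      (isClosed_le hc4 continuous_const)
  have himg : DD (k := k) R b₁ b₂ = Prod.fst '' D' := by
    ext p
    constructor
    · rintro ⟨t, ht0, h1, h2⟩
      exact ⟨(p, ⟨t, ht0⟩), ⟨h1, h2⟩, rfl⟩
    · rintro ⟨⟨q, t⟩, ⟨h1, h2⟩, rfl⟩
      exact ⟨t, t.2, h1, h2⟩
  rw [himg]
  exact isClosedMap_fst_of_compactSpace _ hD'c

theorem volume_preimage_le {T : Set (EuclideanSpace ℝ (Fin (k + 1)))} {β κ : ℝ} (hκ : 0 < κ)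
    (hβ : κ ≤ β) (c : EuclideanSpace ℝ (Fin (k + 1))) :
    volume {x | β • x + c ∈ T} ≤ ENNReal.ofReal ((κ ^ (k + 1))⁻¹) * volume T := by
  have h1 : {x | β • x + c ∈ T} = (fun x => β • x) ⁻¹' ((fun x => x + c) ⁻¹' T) := rfl
  have hβ0 : 0 < β := hκ.trans_le hβ
  rw [h1, Measure.addHaar_preimage_smul volume hβ0.ne', measure_preimage_add_right]
  gcongr
  rw [finrank_euclideanSpace_fin, abs_of_pos (by positivity)]
  gcongr

/-- the volume of `GG` as an integral -/
theorem volume_GG (ω : Fin (k + 1) × Bool → EuclideanSpace ℝ (Fin (k + 1))) (κ R : ℝ)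
    (b₁ b₂ : Fin (k + 1) → Bool) :
    volume (GG (cf ω) κ R b₁ b₂) =
      ∫⁻ t in {t : Fin k → ℝ | ∀ i, κ ≤ bary t i}, (DD R b₁ b₂).indicator (fun _ => 1) (ω, t) := by
  have hm : MeasurableSet {t : Fin k → ℝ | (ω, t) ∈ DD (k := k) R b₁ b₂} :=
    ((isClosed_DD (k := k) R b₁ b₂).preimage (by fun_prop : Continuous fun t : Fin k → ℝ =>
      (ω, t))).measurableSet
  have h1 : ∀ t : Fin k → ℝ, (DD R b₁ b₂).indicator (fun _ => (1 : ℝ≥0∞)) (ω, t) =
      {t : Fin k → ℝ | (ω, t) ∈ DD (k := k) R b₁ b₂}.indicator (fun _ => 1) t := fun t => rfl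
  rw [lintegral_congr h1, lintegral_indicator_const hm 1, one_mul, Measure.restrict_apply hm]
  congr 1
  ext t
  simp only [GG, DD, mem_ofPred_eq, mem_inter_iff]
  tauto

theorem measurable_volume_GG (κ R : ℝ) (b₁ b₂ : Fin (k + 1) → Bool) :
    Measurable fun ω : Fin (k + 1) × Bool → EuclideanSpace ℝ (Fin (k + 1)) =>
      volume (GG (cf ω) κ R b₁ b₂) := by
  simp only [volume_GG]
  refine Measurable.lintegral_prod_right' (f := fun p : (Fin (k + 1) × Bool →
    EuclideanSpace ℝ (Fin (k + 1))) × (Fin k → ℝ) => (DD R b₁ b₂).indicator (fun _ => 1) p) ?_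
  exact measurable_const.indicator (isClosed_DD R b₁ b₂).measurableSet

theorem fval_le_one {X : Type*} {n : ℕ} {h : (Fin n → X) → ℝ≥0∞} (hh : ∀ a, h a ≤ 1)
    (b : Fin n → Bool) (ω : Fin n × Bool → X) : fval h b ω ≤ 1 := by
  unfold fval
  exact hh _

theorem Phi_le_Psi {X : Type*} {n : ℕ} {h : (Fin n → X) → ℝ≥0∞} (hh : ∀ a, h a ≤ 1) (j : Fin n)
    (c : Bool) (ω : Fin n × Bool → X) : Phi h ω ≤ Psi h j c ω := by
  unfold Phi Psi
  rw [← Finset.prod_filter_mul_prod_filter_not Finset.univ (fun b : Fin n → Bool => b j = c)]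
  calc _ ≤ (∏ b ∈ Finset.univ.filter (fun b : Fin n → Bool => b j = c), fval h b ω) * 1 := by
        refine mul_le_mul' le_rfl ?_
        exact Finset.prod_le_one' fun b _ => hh _
    _ = _ := mul_one _

theorem Psi_le_one {X : Type*} {n : ℕ} {h : (Fin n → X) → ℝ≥0∞} (hh : ∀ a, h a ≤ 1) (j : Fin n)
    (c : Bool) (ω : Fin n × Bool → X) : Psi h j c ω ≤ 1 :=
  Finset.prod_le_one' fun b _ => hh _

/-- the main counting estimate for a pair of distinct faces -/
theorem pair_bound (μ : Measure (EuclideanSpace ℝ (Fin (k + 1)))) [IsProbabilityMeasure μ]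
    {L : ℝ≥0∞} (hL : ∀ s, μ s ≤ L * volume s)
    {h : (Fin (k + 1) → EuclideanSpace ℝ (Fin (k + 1))) → ℝ≥0∞} (hm : Measurable h)
    (hh : ∀ a, h a ≤ 1) {κ R : ℝ} (hκ : 0 < κ) (hR : 0 ≤ R) {b₁ b₂ : Fin (k + 1) → Bool}
    {j : Fin (k + 1)} (hj : b₂ j ≠ b₁ j) :
    ∫⁻ ω, Phi h ω * volume (GG (cf ω) κ R b₁ b₂)
        ∂(Measure.pi fun _ : Fin (k + 1) × Bool => μ) ≤
      (L * (ENNReal.ofReal ((κ ^ (k + 1))⁻¹) * ENNReal.ofReal (2 * R))) *
        ∫⁻ ω, Psi h j false ω ∂(Measure.pi fun _ : Fin (k + 1) × Bool => μ) := by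
  set Dk : Set (Fin k → ℝ) := {t | ∀ i, κ ≤ bary t i} with hDk
  have hDkm : MeasurableSet Dk := by
    rw [hDk, ofPred_forall]
    exact MeasurableSet.iInter fun i =>
      (isClosed_le continuous_const (continuous_bary_apply i)).measurableSet
  have hDk1 : volume Dk ≤ 1 := by
    refine (measure_mono ?_).trans (volume_simplex_le_one (k := k))
    exact fun t ht i => hκ.le.trans (ht i)
  set C : ℝ≥0∞ := L * (ENNReal.ofReal ((κ ^ (k + 1))⁻¹) * ENNReal.ofReal (2 * R)) with hC
  set I : (Fin (k + 1) × Bool → EuclideanSpace ℝ (Fin (k + 1))) × (Fin k → ℝ) → ℝ≥0∞ :=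
    (DD R b₁ b₂).indicator (fun _ => 1) with hI
  have hIm : Measurable I := measurable_const.indicator (isClosed_DD R b₁ b₂).measurableSet
  -- for fixed `t`
  have hfix : ∀ t ∈ Dk, ∫⁻ ω, Phi h ω * I (ω, t)
      ∂(Measure.pi fun _ : Fin (k + 1) × Bool => μ) ≤
      C * ∫⁻ ω, Psi h j false ω ∂(Measure.pi fun _ : Fin (k + 1) × Bool => μ) := by
    intro t ht
    have hPm : Measurable fun ω : Fin (k + 1) × Bool → EuclideanSpace ℝ (Fin (k + 1)) =>
        Psi h j (b₂ j) ω * I (ω, t) :=
      (measurable_Psi hm j (b₂ j)).mul (hIm.comp (measurable_id.prodMk measurable_const))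
    calc ∫⁻ ω, Phi h ω * I (ω, t) ∂(Measure.pi fun _ : Fin (k + 1) × Bool => μ)
        ≤ ∫⁻ ω, Psi h j (b₂ j) ω * I (ω, t) ∂(Measure.pi fun _ : Fin (k + 1) × Bool => μ) :=
          lintegral_mono fun ω => mul_le_mul' (Phi_le_Psi hh j _ ω) le_rfl
      _ = ∫⁻ ω, ∫⁻ x, Psi h j (b₂ j) (Function.update ω (j, b₁ j) x) *
            I (Function.update ω (j, b₁ j) x, t) ∂μ
            ∂(Measure.pi fun _ : Fin (k + 1) × Bool => μ) := (resample μ hPm (j, b₁ j)).symm
      _ ≤ ∫⁻ ω, C * Psi h j (b₂ j) ω ∂(Measure.pi fun _ : Fin (k + 1) × Bool => μ) := by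
          refine lintegral_mono fun ω => ?_
          have e1 : ∀ x, Psi h j (b₂ j) (Function.update ω (j, b₁ j) x) = Psi h j (b₂ j) ω := by
            intro x
            have : b₁ j = !(b₂ j) := by
              cases h1 : b₁ j <;> cases h2 : b₂ j <;> simp_all
            rw [this]
            exact Psi_indep h j (b₂ j) ω x
          set c : EuclideanSpace ℝ (Fin (k + 1)) :=
            ∑ i ∈ Finset.univ.erase j, bary t i • ω (i, b₁ i) with hc
          have e2 : ∀ x, UU (fv (cf (Function.update ω (j, b₁ j) x)) b₁) t =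
              bary t j • x + c := by
            intro x
            unfold UU
            rw [← Finset.add_sum_erase _ _ (Finset.mem_univ j)]
            congr 1
            · simp [fv, cf]
            · rw [hc]
              refine Finset.sum_congr rfl fun i hi => ?_
              have hij : i ≠ j := Finset.ne_of_mem_erase hi
              have : (i, b₁ i) ≠ (j, b₁ j) := fun he => hij (Prod.ext_iff.1 he).1
              simp only [fv, cf, Function.update_of_ne this]
          have e3 : ∀ x, fv (cf (Function.update ω (j, b₁ j) x)) b₂ = fv (cf ω) b₂ := by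
            intro x
            funext i
            have : (i, b₂ i) ≠ (j, b₁ j) := by
              intro he
              have h1 := (Prod.ext_iff.1 he).1
              have h2 := (Prod.ext_iff.1 he).2
              simp only at h1 h2
              rw [h1] at h2
              exact hj h2
            simp only [fv, cf, Function.update_of_ne this]
          have e4 : ∀ x, I (Function.update ω (j, b₁ j) x, t) =
              {x | bary t j • x + c ∈ TT (fv (cf ω) b₂) R}.indicator (fun _ => 1) x := by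
            intro x
            have e5 : (Function.update ω (j, b₁ j) x, t) ∈ DD (k := k) R b₁ b₂ ↔
                x ∈ {x | bary t j • x + c ∈ TT (fv (cf ω) b₂) R} := by
              change UU (fv (cf (Function.update ω (j, b₁ j) x)) b₁) t ∈
                TT (fv (cf (Function.update ω (j, b₁ j) x)) b₂) R ↔
                bary t j • x + c ∈ TT (fv (cf ω) b₂) R
              rw [e2, e3]
            by_cases hx : x ∈ {x | bary t j • x + c ∈ TT (fv (cf ω) b₂) R}
            · rw [hI, indicator_of_mem (e5.2 hx), indicator_of_mem hx]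
            · rw [hI, indicator_of_notMem (fun h => hx (e5.1 h)), indicator_of_notMem hx]
          calc ∫⁻ x, Psi h j (b₂ j) (Function.update ω (j, b₁ j) x) *
                I (Function.update ω (j, b₁ j) x, t) ∂μ
              = ∫⁻ x, Psi h j (b₂ j) ω *
                {x | bary t j • x + c ∈ TT (fv (cf ω) b₂) R}.indicator (fun _ => 1) x ∂μ := by
                refine lintegral_congr fun x => ?_
                rw [e1, e4]
            _ ≤ Psi h j (b₂ j) ω * μ {x | bary t j • x + c ∈ TT (fv (cf ω) b₂) R} := by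
                rw [lintegral_const_mul']
                · gcongr
                  exact lintegral_indicator_const_le _ _ |>.trans (by rw [one_mul])
                · exact ne_of_lt (lt_of_le_of_lt (Psi_le_one hh j _ ω) ENNReal.one_lt_top)
            _ ≤ Psi h j (b₂ j) ω * C := by
                gcongr
                refine (hL _).trans ?_
                rw [hC]
                gcongr
                refine (volume_preimage_le hκ (ht j) c).trans ?_
                gcongr
                exact volume_TT_le _ hR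
            _ = C * Psi h j (b₂ j) ω := mul_comm _ _
      _ = C * ∫⁻ ω, Psi h j (b₂ j) ω ∂(Measure.pi fun _ : Fin (k + 1) × Bool => μ) :=
          lintegral_const_mul _ (measurable_Psi hm j _)
      _ = C * ∫⁻ ω, Psi h j false ω ∂(Measure.pi fun _ : Fin (k + 1) × Bool => μ) := by
          rw [lintegral_Psi μ hm j (b₂ j)]
  calc ∫⁻ ω, Phi h ω * volume (GG (cf ω) κ R b₁ b₂)
        ∂(Measure.pi fun _ : Fin (k + 1) × Bool => μ)
      = ∫⁻ ω, (∫⁻ t in Dk, Phi h ω * I (ω, t))
          ∂(Measure.pi fun _ : Fin (k + 1) × Bool => μ) := by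
        refine lintegral_congr fun ω => ?_
        rw [volume_GG, ← lintegral_const_mul]
        exact hIm.comp (measurable_const.prodMk measurable_id)
    _ = ∫⁻ t in Dk, (∫⁻ ω, Phi h ω * I (ω, t)
          ∂(Measure.pi fun _ : Fin (k + 1) × Bool => μ)) := by
        refine lintegral_lintegral_swap ?_
        exact (((measurable_Phi hm).comp measurable_fst).mul hIm).aemeasurable
    _ ≤ ∫⁻ _ in Dk, (C * ∫⁻ ω, Psi h j false ω
          ∂(Measure.pi fun _ : Fin (k + 1) × Bool => μ)) := setLIntegral_mono' hDkm hfix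
    _ = (C * ∫⁻ ω, Psi h j false ω ∂(Measure.pi fun _ : Fin (k + 1) × Bool => μ)) *
          volume Dk := setLIntegral_const _ _
    _ ≤ (C * ∫⁻ ω, Psi h j false ω ∂(Measure.pi fun _ : Fin (k + 1) × Bool => μ)) * 1 := by
        gcongr
    _ = _ := mul_one _

end Pool.Agent.Lib.BeerIndex
end

section

/-!
# MP_d216ef_co: main estimate
-/

set_option autoImplicit false

namespace Pool.Agent.Lib.BeerIndex

open Set MeasureTheory Topology Filter
open scoped ENNReal

variable {k : ℕ}

theorem pi_cond {n : ℕ} {E : Type*} [MeasureSpace E] [SigmaFinite (volume : Measure E)] {S : Set E}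
    (h0 : volume S ≠ 0) (hT : volume S ≠ ⊤) :
    Measure.pi (fun _ : Fin n => ProbabilityTheory.cond (volume : Measure E) S) =
      ((volume S)⁻¹) ^ n • (volume : Measure (Fin n → E)).restrict (univ.pi fun _ => S) := by
  have := ProbabilityTheory.cond_isProbabilityMeasure_of_finite h0 hT
  refine (Measure.pi_eq fun s hs => ?_)
  have hp : ((volume S)⁻¹) ^ n = ∏ _i : Fin n, (volume S)⁻¹ := by simp
  rw [volume_pi, Measure.restrict_pi_pi, Measure.smul_apply, Measure.pi_pi, smul_eq_mul,
    hp, ← Finset.prod_mul_distrib]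
  refine Finset.prod_congr rfl fun i _ => ?_
  rfl

theorem main_estimate (hk : 1 ≤ k) : ∃ D : ℝ≥0∞, D ≠ ⊤ ∧
    ∀ S : Set (EuclideanSpace ℝ (Fin (k + 1))),
      volume S ≠ 0 → volume S ≠ ⊤ → NullMeasurableSet (simplexSet k S) volume →
      (∀ A ∈ S, ∀ f : C(Metric.sphere (0 : EuclideanSpace ℝ (Fin (k + 1))) 1, pComponent S A),
        f.Nullhomotopic) →
      ∀ M : ℝ, 0 < M → supc S ≤ ENNReal.ofReal M →
      ((volume S)⁻¹ ^ (k + 1) * volume (simplexSet k S)) ^ (2 ^ k) ≤
        D * ((volume S)⁻¹ * ENNReal.ofReal M) := by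
  classical
  obtain ⟨A, κ, hA, hκ, hG⟩ := lemmaG (k := k) hk
  set v : ℝ≥0∞ := volume {t : Fin k → ℝ | ∀ i, 0 < bary t i} with hv
  have hv0 : v ≠ 0 := volume_open_simplex_pos.ne'
  have hvT : v ≠ ⊤ := ne_of_lt (lt_of_le_of_lt ((measure_mono open_simplex_subset).trans
    volume_simplex_le_one) ENNReal.one_lt_top)
  have hv20 : v / 2 ≠ 0 := (ENNReal.half_pos hv0).ne'
  have hv2T : v / 2 ≠ ⊤ := ENNReal.div_ne_top hvT (by norm_num)
  refine ⟨(pairs k).card * (ENNReal.ofReal ((κ ^ (k + 1))⁻¹) * ENNReal.ofReal (2 * A)) / (v / 2),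
    ENNReal.div_ne_top (ENNReal.mul_ne_top (ENNReal.natCast_ne_top _)
      (ENNReal.mul_ne_top ENNReal.ofReal_ne_top ENNReal.ofReal_ne_top)) hv20, ?_⟩
  intro S hS0 hST hSm hnull M hM hSM
  set μ := ProbabilityTheory.cond (volume : Measure (EuclideanSpace ℝ (Fin (k + 1)))) S with hμdef
  have hprob : IsProbabilityMeasure μ :=
    ProbabilityTheory.cond_isProbabilityMeasure_of_finite hS0 hST
  have hL : ∀ s, μ s ≤ (volume S)⁻¹ * volume s := by
    intro s
    change (volume S)⁻¹ * (volume.restrict S) s ≤ _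
    gcongr
    exact Measure.restrict_le_self
  have hac : μ ≪ volume := by
    intro s hs
    have := hL s
    rw [hs, mul_zero] at this
    exact le_antisymm this zero_le
  obtain ⟨H, hHs, hHm, hHe⟩ := hSm.exists_measurable_subset_ae_eq
  set h : (Fin (k + 1) → EuclideanSpace ℝ (Fin (k + 1))) → ℝ≥0∞ := H.indicator (fun _ => 1) with hh
  have hm : Measurable h := measurable_const.indicator hHm
  have hh1 : ∀ a, h a ≤ 1 := fun a => indicator_le_self' (fun _ _ => zero_le) a
  have hb : ∫⁻ a, h a ∂(Measure.pi fun _ : Fin (k + 1) => μ) =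
      (volume S)⁻¹ ^ (k + 1) * volume (simplexSet k S) := by
    rw [hh, lintegral_indicator_const hHm, one_mul, hμdef, pi_cond hS0 hST, Measure.smul_apply,
      Measure.restrict_apply hHm, smul_eq_mul, ← measure_congr hHe]
    congr 2
    rw [inter_eq_left]
    intro a ha i _
    exact (hHs ha).1 i
  obtain ⟨j0, -, hj0⟩ := Finset.exists_max_image Finset.univ (fun j : Fin (k + 1) =>
    ∫⁻ ω, Psi h j false ω ∂(Measure.pi fun _ : Fin (k + 1) × Bool => μ)) Finset.univ_nonempty
  set Q := ∫⁻ ω, Psi h j0 false ω ∂(Measure.pi fun _ : Fin (k + 1) × Bool => μ) with hQ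
  set q := ∫⁻ ω, Phi h ω ∂(Measure.pi fun _ : Fin (k + 1) × Bool => μ) with hq
  set C' : ℝ≥0∞ := (volume S)⁻¹ * (ENNReal.ofReal ((κ ^ (k + 1))⁻¹) *
    ENNReal.ofReal (2 * (A * M))) with hC'
  have hQ1 : Q ≤ 1 := by
    calc Q ≤ ∫⁻ _, 1 ∂(Measure.pi fun _ : Fin (k + 1) × Bool => μ) :=
          lintegral_mono fun ω => Psi_le_one hh1 j0 false ω
      _ = 1 := by simp
  have hAM : 0 < A * M := mul_pos hA hM
  -- pointwise bound
  have hpt : ∀ᵐ ω ∂(Measure.pi fun _ : Fin (k + 1) × Bool => μ),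
      Phi h ω * (v / 2) ≤ Phi h ω * ∑ p ∈ pairs k, volume (GG (cf ω) κ (A * M) p.1 p.2) := by
    filter_upwards [ae_JJ_pos μ hac] with ω hω
    by_cases hz : Phi h ω = 0
    · rw [hz, zero_mul, zero_mul]
    · have hfaces : ∀ b : Fin (k + 1) → Bool, (fun i => ω (i, b i)) ∈ H := by
        intro b
        by_contra hbH
        refine hz (Finset.prod_eq_zero (Finset.mem_univ b) ?_)
        change h (fun i => ω (i, b i)) = 0
        rw [hh, indicator_of_notMem hbH]
      have hface : ∀ b : Fin (k + 1) → Bool,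
          convexHull ℝ (range fun i => cf ω i (b i)) ⊆ S := fun b => (hHs (hfaces b)).2
      have hbase : ω (0, true) ∈ S := (hHs (hfaces fun _ => true)).1 0
      have hP : ∀ w, n1 w = 1 → ff (cf ω) w ∈ pComponent S (ω (0, true)) := fun w hw =>
        ff_mem_pComponent (d := k + 1) (by omega) (cf ω) hface hw
      refine mul_le_mul' le_rfl ?_
      exact hG (cf ω) S (pComponent S (ω (0, true))) (fun x hx => hx.1) (hnull _ hbase) hP hω M hM hSM
  have hmGG : ∀ p ∈ pairs k, Measurable fun ω : Fin (k + 1) × Bool → EuclideanSpace ℝ (Fin (k + 1)) =>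
      Phi h ω * volume (GG (cf ω) κ (A * M) p.1 p.2) := fun p _ =>
    (measurable_Phi hm).mul (measurable_volume_GG κ (A * M) p.1 p.2)
  have hqle : q * (v / 2) ≤ (pairs k).card * (C' * Q) := by
    calc q * (v / 2) = ∫⁻ ω, Phi h ω * (v / 2)
          ∂(Measure.pi fun _ : Fin (k + 1) × Bool => μ) :=
          (lintegral_mul_const _ (measurable_Phi hm)).symm
      _ ≤ ∫⁻ ω, Phi h ω * ∑ p ∈ pairs k, volume (GG (cf ω) κ (A * M) p.1 p.2)
          ∂(Measure.pi fun _ : Fin (k + 1) × Bool => μ) := lintegral_mono_ae hpt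
      _ = ∫⁻ ω, ∑ p ∈ pairs k, Phi h ω * volume (GG (cf ω) κ (A * M) p.1 p.2)
          ∂(Measure.pi fun _ : Fin (k + 1) × Bool => μ) := by simp only [Finset.mul_sum]
      _ = ∑ p ∈ pairs k, ∫⁻ ω, Phi h ω * volume (GG (cf ω) κ (A * M) p.1 p.2)
          ∂(Measure.pi fun _ : Fin (k + 1) × Bool => μ) := lintegral_finsetSum _ hmGG
      _ ≤ ∑ p ∈ pairs k, C' * Q := by
          refine Finset.sum_le_sum fun p hp => ?_
          have hne : p.2 ≠ p.1 := (Finset.mem_filter.1 hp).2
          obtain ⟨j, hj⟩ := Function.ne_iff.1 hne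
          refine (pair_bound μ hL hm hh1 hκ hAM.le hj).trans ?_
          exact mul_le_mul' le_rfl (hj0 j (Finset.mem_univ j))
      _ = (pairs k).card * (C' * Q) := by rw [Finset.sum_const, nsmul_eq_mul]
  have hbQ : ((volume S)⁻¹ ^ (k + 1) * volume (simplexSet k S)) ^ (2 ^ k) ≤ Q := by
    rw [← hb]
    exact pow_le_Psi μ hm j0
  have hQq : Q ^ 2 ≤ q := sq_Psi_le μ hm j0
  have hfin : Q * (v / 2) ≤ (pairs k).card * C' := by
    by_cases hQ0 : Q = 0
    · rw [hQ0, zero_mul]
      exact zero_le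
    · have hQT : Q ≠ ⊤ := ne_of_lt (lt_of_le_of_lt hQ1 ENNReal.one_lt_top)
      refine (ENNReal.mul_le_mul_iff_right hQ0 hQT).1 ?_
      calc Q * (Q * (v / 2)) = Q ^ 2 * (v / 2) := by rw [sq, mul_assoc]
        _ ≤ q * (v / 2) := by gcongr
        _ ≤ (pairs k).card * (C' * Q) := hqle
        _ = Q * ((pairs k).card * C') := by ring
  have hlast : Q ≤ (pairs k).card * C' / (v / 2) := by
    rwa [ENNReal.le_div_iff_mul_le (Or.inl hv20) (Or.inl hv2T)]
  refine hbQ.trans (hlast.trans (le_of_eq ?_))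
  rw [hC']
  have h2AM : ENNReal.ofReal (2 * (A * M)) = ENNReal.ofReal (2 * A) * ENNReal.ofReal M := by
    rw [← ENNReal.ofReal_mul (by positivity)]
    congr 1
    ring
  rw [h2AM]
  generalize ENNReal.ofReal ((κ ^ (k + 1))⁻¹) = x1
  generalize v / 2 = x2
  rw [div_eq_mul_inv, div_eq_mul_inv]
  ring

theorem supc_ne_top {E : Type*} [NormedAddCommGroup E] [NormedSpace ℝ E] [MeasureSpace E] {S : Set E}
    (h : volume S ≠ ⊤) : supc S ≠ ⊤ := by
  refine ne_of_lt (lt_of_le_of_lt ?_ (lt_top_iff_ne_top.2 h))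
  exact iSup₂_le fun K hK => measure_mono hK.2

theorem main_real (d : ℕ) (hd : 2 ≤ d) : ∃ α : ℝ, 0 < α ∧
    ∀ S : Set (EuclideanSpace ℝ (Fin d)), IndexDefined (d - 1) S →
      (∀ A ∈ S, ∀ f : C(Metric.sphere (0 : EuclideanSpace ℝ (Fin d)) 1, pComponent S A),
        f.Nullhomotopic) →
      convIndex (d - 1) S ^ (2 ^ (d - 1)) ≤ α * convRatio S := by
  obtain ⟨k, rfl⟩ : ∃ k, d = k + 1 := ⟨d - 1, by omega⟩
  have hk : 1 ≤ k := by omega
  obtain ⟨D, hDT, hD⟩ := main_estimate (k := k) hk
  refine ⟨D.toReal + 1, by positivity, ?_⟩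
  intro S hS hnull
  simp only [Nat.add_sub_cancel] at hS ⊢
  obtain ⟨-, hS0, hST, hSm⟩ := hS
  set l := (volume S).toReal with hl
  have hlpos : 0 < l := ENNReal.toReal_pos hS0 hST
  set s := (supc S).toReal with hs
  have hs0 : 0 ≤ s := ENNReal.toReal_nonneg
  have hsT : supc S ≠ ⊤ := supc_ne_top hST
  have key : ∀ δ : ℝ, 0 < δ → convIndex k S ^ (2 ^ k) ≤ D.toReal * (s / l) + D.toReal / l * δ := by
    intro δ hδ
    have h1 := hD S hS0 hST hSm hnull (s + δ) (by positivity) (by
      rw [← ENNReal.ofReal_toReal hsT]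
      exact ENNReal.ofReal_le_ofReal (by linarith))
    have hR : D * ((volume S)⁻¹ * ENNReal.ofReal (s + δ)) ≠ ⊤ :=
      ENNReal.mul_ne_top hDT (ENNReal.mul_ne_top (ENNReal.inv_ne_top.2 hS0) ENNReal.ofReal_ne_top)
    have h2 := ENNReal.toReal_mono hR h1
    rw [ENNReal.toReal_pow, ENNReal.toReal_mul, ENNReal.toReal_mul, ENNReal.toReal_mul,
      ENNReal.toReal_pow, ENNReal.toReal_inv, ENNReal.toReal_ofReal (by positivity), ← hl] at h2
    have h3 : convIndex k S = l⁻¹ ^ (k + 1) * (volume (simplexSet k S)).toReal := by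
      rw [convIndex, ← hl, inv_pow, div_eq_mul_inv, mul_comm]
    rw [h3]
    refine h2.trans (le_of_eq ?_)
    field_simp
  have hfin : convIndex k S ^ (2 ^ k) ≤ D.toReal * (s / l) := by
    refine le_of_forall_pos_le_add fun ε hε => ?_
    rcases (ENNReal.toReal_nonneg (a := D)).eq_or_lt with h0 | h0
    · have := key 1 one_pos
      rw [← h0] at this ⊢
      simp only [zero_mul, zero_div, add_zero] at this
      linarith
    · have := key (ε * l / D.toReal) (by positivity)
      have h4 : D.toReal / l * (ε * l / D.toReal) = ε := by field_simp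
      rwa [h4] at this
  have h5 : 0 ≤ s / l := by positivity
  calc convIndex k S ^ (2 ^ k) ≤ D.toReal * (s / l) := hfin
    _ ≤ (D.toReal + 1) * (s / l) := by nlinarith
    _ = (D.toReal + 1) * convRatio S := rfl

end Pool.Agent.Lib.BeerIndex
end
end
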