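import Mathlib
import Pool.Agent.Lib.Topology38.Brouwer

section

/-!
# MP_d216ef_co: topological core (a Brouwer type lemma for the cross-polytope)
-/

set_option autoImplicit false

namespace Pool.Agent.Lib.BeerIndex

open Set Metric Topology

variable {d : ℕ}

/-- the `ℓ¹` norm -/
noncomputable def n1 (w : EuclideanSpace ℝ (Fin d)) : ℝ := ∑ i, |w i|

theorem n1_nonneg (w : EuclideanSpace ℝ (Fin d)) : 0 ≤ n1 w :=
  Finset.sum_nonneg fun _ _ => abs_nonneg _

@[fun_prop]
theorem continuous_n1 : Continuous (n1 : EuclideanSpace ℝ (Fin d) → ℝ) := by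
  unfold n1
  fun_prop

theorem n1_smul (c : ℝ) (w : EuclideanSpace ℝ (Fin d)) : n1 (c • w) = |c| * n1 w := by
  simp [n1, abs_mul, Finset.mul_sum]

theorem n1_add_le (v w : EuclideanSpace ℝ (Fin d)) : n1 (v + w) ≤ n1 v + n1 w := by
  simp only [n1, PiLp.add_apply, ← Finset.sum_add_distrib]
  exact Finset.sum_le_sum fun i _ => abs_add_le _ _

theorem n1_neg (w : EuclideanSpace ℝ (Fin d)) : n1 (-w) = n1 w := by simp [n1]

theorem n1_sub_le (v w : EuclideanSpace ℝ (Fin d)) : n1 (v - w) ≤ n1 v + n1 w := by
  rw [sub_eq_add_neg, ← n1_neg w]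
  exact n1_add_le _ _

theorem abs_le_n1 (w : EuclideanSpace ℝ (Fin d)) (i : Fin d) : |w i| ≤ n1 w :=
  Finset.single_le_sum (f := fun i => |w i|) (fun _ _ => abs_nonneg _) (Finset.mem_univ i)

theorem norm_le_n1 (w : EuclideanSpace ℝ (Fin d)) : ‖w‖ ≤ n1 w := by
  rw [EuclideanSpace.norm_eq]
  refine Real.sqrt_le_iff.2 ⟨n1_nonneg w, ?_⟩
  rw [sq, n1, Finset.sum_mul_sum]
  have : ∀ i, ‖w i‖ ^ 2 ≤ ∑ j, |w i| * |w j| := by
    intro i
    have h := Finset.single_le_sum (f := fun j => |w i| * |w j|)
      (fun _ _ => mul_nonneg (abs_nonneg _) (abs_nonneg _)) (Finset.mem_univ i)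
    rw [Real.norm_eq_abs, sq]
    exact h
  exact Finset.sum_le_sum fun i _ => this i

theorem n1_eq_zero {w : EuclideanSpace ℝ (Fin d)} (h : n1 w = 0) : w = 0 := by
  have := norm_le_n1 w
  rw [h] at this
  exact norm_le_zero_iff.1 this

/-- clamp to `[0,1]` -/
noncomputable def cl (x : ℝ) : ℝ := min (max x 0) 1

theorem cl_nonneg (x : ℝ) : 0 ≤ cl x := by unfold cl; positivity

theorem cl_le_one (x : ℝ) : cl x ≤ 1 := min_le_right _ _

theorem cl_of_nonpos {x : ℝ} (h : x ≤ 0) : cl x = 0 := by simp [cl, h]

theorem cl_of_one_le {x : ℝ} (h : 1 ≤ x) : cl x = 1 := by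
  unfold cl
  rw [max_eq_left (by linarith), min_eq_right h]

@[fun_prop]
theorem continuous_cl : Continuous cl := by unfold cl; fun_prop

/-- radial retraction onto `{n1 ≤ 1}` -/
noncomputable def rr (w : EuclideanSpace ℝ (Fin d)) : EuclideanSpace ℝ (Fin d) :=
  (max (n1 w) 1)⁻¹ • w

@[fun_prop]
theorem continuous_rr : Continuous (rr : EuclideanSpace ℝ (Fin d) → EuclideanSpace ℝ (Fin d)) := by
  unfold rr
  have h1 : Continuous fun w : EuclideanSpace ℝ (Fin d) => max (n1 w) 1 := by fun_prop
  refine Continuous.smul (h1.inv₀ fun w => ?_) continuous_id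
  have : (1 : ℝ) ≤ max (n1 w) 1 := le_max_right _ _
  linarith

theorem rr_of_le {w : EuclideanSpace ℝ (Fin d)} (h : n1 w ≤ 1) : rr w = w := by
  simp [rr, max_eq_right h]

theorem n1_rr {w : EuclideanSpace ℝ (Fin d)} (h : 1 ≤ n1 w) : n1 (rr w) = 1 := by
  rw [rr, max_eq_left h, n1_smul, abs_of_nonneg (by positivity)]
  exact inv_mul_cancel₀ (by linarith)

/-- **Core lemma.** A continuous map `G` on `{n1 ≤ 1}` which vanishes nowhere there cannot have, on the sphere
`{n1 = 1}`, the values `w + (r₀-1) w₀` on the facet of `w₀` and values outside `ℝ_{≥0} w₀` for `w ≠ w₀`. -/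
theorem core [NeZero d] {w0 : EuclideanSpace ℝ (Fin d)} (h1 : n1 w0 = 1) (hne : ∀ i, w0 i ≠ 0)
    {r0 : ℝ} (hr0 : 0 < r0) {G : EuclideanSpace ℝ (Fin d) → EuclideanSpace ℝ (Fin d)}
    (hG : Continuous G) (hG0 : ∀ w, n1 w ≤ 1 → G w ≠ 0)
    (hfac : ∀ w, n1 w = 1 → (∀ i, 0 ≤ w0 i * w i) → G w = w + (r0 - 1) • w0)
    (hray : ∀ w, n1 w = 1 → w ≠ w0 → ∀ s : ℝ, 0 ≤ s → G w ≠ s • w0) : False := by
  -- the distance of `w0` to the boundary of its facet
  obtain ⟨m0, hm0, hm0'⟩ : ∃ m0 : ℝ, 0 < m0 ∧ ∀ i, m0 ≤ |w0 i| := by
    obtain ⟨i, _, hi⟩ := Finset.exists_min_image (Finset.univ : Finset (Fin d)) (fun i => |w0 i|)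
      ⟨⟨0, Nat.pos_of_ne_zero (NeZero.ne d)⟩, Finset.mem_univ _⟩
    exact ⟨|w0 i|, abs_pos.2 (hne i), fun j => hi j (Finset.mem_univ _)⟩
  -- bound of `G` on the sphere
  have hcomp : IsCompact {w : EuclideanSpace ℝ (Fin d) | n1 w = 1} := by
    refine Metric.isCompact_of_isClosed_isBounded (isClosed_eq continuous_n1 continuous_const) ?_
    refine (Metric.isBounded_closedBall (x := (0 : EuclideanSpace ℝ (Fin d))) (r := 1)).subset ?_
    intro w hw
    rw [mem_closedBall_zero_iff]
    exact (norm_le_n1 w).trans (le_of_eq hw)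
  obtain ⟨B, hB⟩ : ∃ B : ℝ, ∀ w, n1 w = 1 → n1 (G w) ≤ B := by
    obtain ⟨B, hB⟩ := (hcomp.image (continuous_n1.comp hG)).bddAbove
    exact ⟨B, fun w hw => hB ⟨w, hw, rfl⟩⟩
  have hB0 : 0 ≤ B := (n1_nonneg _).trans (hB w0 h1)
  obtain ⟨L, hL0, hL⟩ : ∃ L : ℝ, 0 < L ∧ 2 * B < L * m0 := by
    refine ⟨(2 * B + 1) / m0, by positivity, ?_⟩
    rw [div_mul_cancel₀ _ hm0.ne']
    linarith
  set chi : EuclideanSpace ℝ (Fin d) → ℝ := fun w => max (1 - n1 (w - w0) / m0) 0 with hchi
  have hchi_c : Continuous chi := by
    simp only [hchi]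
    fun_prop
  have hchi0 : ∀ w, 0 ≤ chi w := fun w => le_max_right _ _
  have hchi1 : ∀ w, chi w ≤ 1 := fun w => by
    refine max_le ?_ zero_le_one
    have : 0 ≤ n1 (w - w0) / m0 := div_nonneg (n1_nonneg _) hm0.le
    linarith
  have hchiw0 : chi w0 = 1 := by
    simp [hchi, n1]
  -- off the facet
  have hoff : ∀ w, (¬ ∀ i, 0 ≤ w0 i * w i) → m0 ≤ n1 (w - w0) := by
    intro w hw
    push Not at hw
    obtain ⟨i, hi⟩ := hw
    refine (hm0' i).trans ((?_ : |w0 i| ≤ |(w - w0) i|).trans (abs_le_n1 _ i))
    simp only [PiLp.sub_apply]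
    rcases lt_or_gt_of_ne (hne i) with h | h
    · have h2 : 0 < w i := by
        by_contra hc
        push Not at hc
        nlinarith
      rw [abs_of_neg h, abs_of_pos (by linarith)]
      linarith
    · have h2 : w i < 0 := by
        by_contra hc
        push Not at hc
        nlinarith
      rw [abs_of_pos h, abs_of_neg (by linarith)]
      linarith
  have hchioff : ∀ w, (¬ ∀ i, 0 ≤ w0 i * w i) → chi w = 0 := by
    intro w hw
    have h := hoff w hw
    simp only [hchi]
    refine max_eq_right ?_
    have : 1 ≤ n1 (w - w0) / m0 := by rwa [le_div_iff₀ hm0, one_mul]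
    linarith
  set Q : EuclideanSpace ℝ (Fin d) → EuclideanSpace ℝ (Fin d) := fun w =>
    (1 - cl (n1 w - 2)) • (G (rr w) - (cl (n1 w - 1) * (L * (1 - chi (rr w)))) • w0) +
      cl (n1 w - 2) • rr w with hQ
  have hQc : Continuous Q := by
    simp only [hQ]
    fun_prop
  have hQ0 : ∀ w, Q w ≠ 0 := by
    intro w hw
    rcases le_total (n1 w) 1 with h | h
    · -- inside
      have e1 : cl (n1 w - 2) = 0 := cl_of_nonpos (by linarith)
      have e2 : cl (n1 w - 1) = 0 := cl_of_nonpos (by linarith)
      simp only [hQ, e1, e2, rr_of_le h] at hw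
      simp only [sub_zero, one_smul, zero_mul, zero_smul, add_zero] at hw
      exact hG0 w h hw
    have hv : n1 (rr w) = 1 := n1_rr h
    generalize hv' : rr w = v at hv
    rcases le_total (n1 w) 2 with h2 | h2
    · have e1 : cl (n1 w - 2) = 0 := cl_of_nonpos (by linarith)
      simp only [hQ, e1, hv'] at hw
      simp only [sub_zero, one_smul, zero_smul, add_zero] at hw
      by_cases hvw : v = w0
      · rw [hvw, hchiw0, sub_self, mul_zero, mul_zero, zero_smul, sub_zero] at hw
        rw [hvw] at hv
        exact hG0 w0 hv.le hw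
      · refine hray v hv hvw _ ?_ (sub_eq_zero.1 hw)
        have := hchi1 v
        have := cl_nonneg (n1 w - 1)
        have : 0 ≤ 1 - chi v := by linarith
        positivity
    · have e2 : cl (n1 w - 1) = 1 := cl_of_one_le (by linarith)
      simp only [hQ, e2, hv', one_mul] at hw
      -- the claim that `q1 v` is not a nonpositive multiple of `v`
      have key : ∀ nu : ℝ, 0 ≤ nu → G v - (L * (1 - chi v)) • w0 ≠ -(nu • v) := by
        intro nu hnu heq
        by_cases hf : ∀ i, 0 ≤ w0 i * v i
        · rw [hfac v hv hf] at heq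
          have h3 : (1 + nu) • v = (1 - r0 + L * (1 - chi v)) • w0 := by
            have : v + (r0 - 1) • w0 - (L * (1 - chi v)) • w0 + nu • v = 0 := by
              rw [heq]; simp
            have h4 : (1 + nu) • v - (1 - r0 + L * (1 - chi v)) • w0 = 0 := by
              rw [← this]
              module
            exact sub_eq_zero.1 h4
          -- compare the values of the functional
          have hl : ∀ w : EuclideanSpace ℝ (Fin d), n1 w = 1 → (∀ i, 0 ≤ w0 i * w i) →
              ∑ i, SignType.sign (w0 i) * w i = 1 := by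
            intro w hw1 hw2
            rw [← hw1, n1]
            refine Finset.sum_congr rfl fun i _ => ?_
            rcases lt_or_gt_of_ne (hne i) with h | h
            · have h5 : w i ≤ 0 := by
                by_contra hc
                push Not at hc
                have := hw2 i
                nlinarith
              rw [sign_neg h, abs_of_nonpos h5]
              simp
            · have h5 : 0 ≤ w i := by
                by_contra hc
                push Not at hc
                have := hw2 i
                nlinarith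
              rw [sign_pos h, abs_of_nonneg h5]
              simp
          have hlv := hl v hv hf
          have hlw0 := hl w0 h1 (fun i => mul_self_nonneg _)
          have h5 : (1 + nu) = 1 - r0 + L * (1 - chi v) := by
            have e3 : ∑ i, (SignType.sign (w0 i) : ℝ) * ((1 + nu) • v) i = 1 + nu := by
              simp only [PiLp.smul_apply, smul_eq_mul]
              calc ∑ i, (SignType.sign (w0 i) : ℝ) * ((1 + nu) * v i)
                  = (1 + nu) * ∑ i, (SignType.sign (w0 i) : ℝ) * v i := by
                    rw [Finset.mul_sum]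
                    exact Finset.sum_congr rfl fun i _ => by ring
                _ = 1 + nu := by rw [hlv, mul_one]
            have e4 : ∑ i, (SignType.sign (w0 i) : ℝ) * ((1 - r0 + L * (1 - chi v)) • w0) i =
                1 - r0 + L * (1 - chi v) := by
              simp only [PiLp.smul_apply, smul_eq_mul]
              calc ∑ i, (SignType.sign (w0 i) : ℝ) * ((1 - r0 + L * (1 - chi v)) * w0 i)
                  = (1 - r0 + L * (1 - chi v)) * ∑ i, (SignType.sign (w0 i) : ℝ) * w0 i := by
                    rw [Finset.mul_sum]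
                    exact Finset.sum_congr rfl fun i _ => by ring
                _ = 1 - r0 + L * (1 - chi v) := by rw [hlw0, mul_one]
            rw [← e3, h3, e4]
          have h6 : v = w0 := by
            rw [← h5] at h3
            exact smul_right_injective _ (by positivity : (1 + nu) ≠ 0) h3
          rw [h6, hchiw0] at h5
          linarith
        · rw [hchioff v hf, sub_zero, mul_one] at heq
          have h3 : G v = L • w0 - nu • v := by
            have := congrArg (fun z => z + L • w0) heq
            simp only [sub_add_cancel] at this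
            rw [this]
            abel
          have h4 : n1 (L • w0 - nu • v) ≤ B := by
            rw [← h3]
            exact hB v hv
          have h5 : |L - nu| ≤ B := by
            rw [abs_le]
            constructor
            · have h6 : n1 (nu • v) ≤ n1 (L • w0 - nu • v) + n1 (L • w0) := by
                have := n1_sub_le (L • w0 - nu • v) (L • w0)
                rw [show L • w0 - nu • v - L • w0 = -(nu • v) by abel, n1_neg] at this
                exact this
              rw [n1_smul, n1_smul, hv, h1, abs_of_nonneg hnu, abs_of_pos hL0] at h6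
              linarith
            · have h6 : n1 (L • w0) ≤ n1 (L • w0 - nu • v) + n1 (nu • v) := by
                have := n1_add_le (L • w0 - nu • v) (nu • v)
                rwa [sub_add_cancel] at this
              rw [n1_smul, n1_smul, hv, h1, abs_of_nonneg hnu, abs_of_pos hL0] at h6
              linarith
          have h6 : L * n1 (v - w0) ≤ 2 * B := by
            have h7 : n1 (L • (v - w0)) ≤ n1 ((L - nu) • v) + n1 (L • w0 - nu • v) := by
              have := n1_sub_le ((L - nu) • v) (L • w0 - nu • v)
              rwa [show (L - nu) • v - (L • w0 - nu • v) = L • (v - w0) by module] at this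
            rw [n1_smul, n1_smul, hv, abs_of_pos hL0] at h7
            linarith
          have h7 := hoff v hf
          have h8 : L * m0 ≤ L * n1 (v - w0) := by gcongr
          linarith
      rcases eq_or_lt_of_le (cl_le_one (n1 w - 2)) with h3 | h3
      · rw [h3] at hw
        simp only [sub_self, zero_smul, one_smul, zero_add] at hw
        rw [hw] at hv
        simp [n1] at hv
      · set c := cl (n1 w - 2) with hc
        have hc0 : 0 ≤ c := cl_nonneg _
        have hc1 : 0 < 1 - c := by linarith
        refine key (c / (1 - c)) (by positivity) ?_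
        have h4 : (1 - c) • (G v - (L * (1 - chi v)) • w0) = -(c • v) :=
          eq_neg_of_add_eq_zero_left hw
        have h5 : G v - (L * (1 - chi v)) • w0 = (1 - c)⁻¹ • (-(c • v)) := by
          rw [← h4, smul_smul, inv_mul_cancel₀ hc1.ne', one_smul]
        rw [h5, smul_neg, smul_smul]
        congr 2
        field_simp
  -- apply Brouwer
  obtain ⟨x, _, hx0⟩ := Pool.Agent.Lib.Topology38.exists_zero_of_continuous
    (q := fun w : EuclideanSpace ℝ (Fin d) => Q ((3 : ℝ) • w)) (by fun_prop) (by
      intro w hw
      have h3 : 3 ≤ n1 ((3 : ℝ) • w) := by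
        have := norm_le_n1 ((3 : ℝ) • w)
        rw [norm_smul, hw] at this
        simpa using this
      have e1 : cl (n1 ((3 : ℝ) • w) - 2) = 1 := cl_of_one_le (by linarith)
      simp only [hQ, e1]
      simp only [sub_self, zero_smul, one_smul, zero_add]
      rw [rr, max_eq_left (by linarith), smul_smul, inner_smul_right, real_inner_self_eq_norm_sq, hw]
      have : 0 < n1 ((3 : ℝ) • w) := by linarith
      positivity)
  exact hQ0 _ hx0

end Pool.Agent.Lib.BeerIndex
end

section

/-!
# MP_d216ef_co: the topological lemma (Lemma T)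
-/

set_option autoImplicit false

namespace Pool.Agent.Lib.BeerIndex

open Set Metric Topology

variable {d : ℕ} {E : Type*} [NormedAddCommGroup E] [NormedSpace ℝ E]

/-- the piecewise linear map of the cross-polytope with vertices `a i true`, `a i false` -/
noncomputable def ff (a : Fin d → Bool → E) (w : EuclideanSpace ℝ (Fin d)) : E :=
  ∑ i, (max (w i) 0 • a i true + max (-(w i)) 0 • a i false)

@[fun_prop]
theorem continuous_ff (a : Fin d → Bool → E) : Continuous (ff a) := by
  unfold ff
  fun_prop

/-- on the facet of sign pattern `b` the map is linear -/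
theorem ff_eq (a : Fin d → Bool → E) (w : EuclideanSpace ℝ (Fin d)) (b : Fin d → Bool)
    (h : ∀ i, (b i = true → 0 ≤ w i) ∧ (b i = false → w i ≤ 0)) :
    ff a w = ∑ i, |w i| • a i (b i) := by
  unfold ff
  refine Finset.sum_congr rfl fun i _ => ?_
  cases hb : b i with
  | true =>
    have := (h i).1 hb
    rw [max_eq_left this, max_eq_right (by linarith), zero_smul, add_zero, abs_of_nonneg this]
  | false =>
    have := (h i).2 hb
    rw [max_eq_right this, max_eq_left (by linarith), zero_smul, zero_add, abs_of_nonpos this]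

/-- **Lemma T.** If the union of the faces of the octahedral cycle `a` lies in a set `P` all of whose `(d-1)`-spheres
are nullhomotopic and the ray `x + ℝ_{≥0} e` meets the cycle in exactly one point, transversally and in the interior of
a face, then `x ∈ P`. -/
theorem mem_of_ray [NeZero d] [FiniteDimensional ℝ E] (hdim : Module.finrank ℝ E = d)
    (a : Fin d → Bool → E) {P : Set E}
    (hnull : ∀ f : C(Metric.sphere (0 : EuclideanSpace ℝ (Fin d)) 1, P), f.Nullhomotopic)
    (hP : ∀ w, n1 w = 1 → ff a w ∈ P)
    {x e : E} {w0 : EuclideanSpace ℝ (Fin d)} (h1 : n1 w0 = 1) (hne : ∀ i, w0 i ≠ 0) {r0 : ℝ}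
    (hr0 : 0 < r0) (hw0 : ff a w0 = x + r0 • e)
    (H1 : ∀ w, n1 w = 1 → ∀ r : ℝ, 0 ≤ r → ff a w = x + r • e → w = w0)
    (H2 : ∀ c : Fin d → ℝ, ∑ i, c i = 0 → ∀ r : ℝ,
      ∑ i, c i • a i (decide (0 < w0 i)) = r • e → c = 0 ∧ r = 0) : x ∈ P := by
  by_contra hx
  have hn1S : ∀ v : Metric.sphere (0 : EuclideanSpace ℝ (Fin d)) 1, 0 < n1 (v : EuclideanSpace ℝ (Fin d)) := by
    intro v
    have h2 : ‖(v : EuclideanSpace ℝ (Fin d))‖ = 1 := by simp
    have := norm_le_n1 (v : EuclideanSpace ℝ (Fin d))
    linarith
  let F : C(Metric.sphere (0 : EuclideanSpace ℝ (Fin d)) 1, P) :=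
    { toFun := fun v => ⟨ff a ((n1 (v : EuclideanSpace ℝ (Fin d)))⁻¹ • (v : EuclideanSpace ℝ (Fin d))),
        hP _ (by
          have := hn1S v
          rw [n1_smul, abs_of_pos (by positivity), inv_mul_cancel₀ this.ne'])⟩
      continuous_toFun := by
        refine Continuous.subtype_mk ((continuous_ff a).comp ?_) _
        exact (Continuous.inv₀ (continuous_n1.comp continuous_subtype_val)
          fun v => (hn1S v).ne').smul continuous_subtype_val }
  obtain ⟨p, ⟨H⟩⟩ := hnull F
  -- signs
  set sg : Fin d → ℝ := fun i => if 0 < w0 i then 1 else -1 with hsg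
  have hsg2 : ∀ i, sg i * sg i = 1 := by
    intro i
    simp only [hsg]
    split_ifs <;> norm_num
  have hsgabs : ∀ (w : EuclideanSpace ℝ (Fin d)), (∀ i, 0 ≤ w0 i * w i) → ∀ i,
      sg i * w i = |w i| := by
    intro w hw i
    have h := hw i
    simp only [hsg]
    rcases lt_or_gt_of_ne (hne i) with h3 | h3
    · have h5 : w i ≤ 0 := by
        by_contra hc
        push Not at hc
        nlinarith
      rw [if_neg (by linarith), abs_of_nonpos h5]
      ring
    · have h5 : 0 ≤ w i := by
        by_contra hc
        push Not at hc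
        nlinarith
      rw [if_pos h3, abs_of_nonneg h5]
      ring
  have hfacet : ∀ (w : EuclideanSpace ℝ (Fin d)), (∀ i, 0 ≤ w0 i * w i) →
      ff a w = ∑ i, (sg i * w i) • a i (decide (0 < w0 i)) := by
    intro w hw
    rw [ff_eq a w (fun i => decide (0 < w0 i)) (fun i => ⟨fun h => ?_, fun h => ?_⟩)]
    · exact Finset.sum_congr rfl fun i _ => by rw [hsgabs w hw i]
    · have h2 : 0 < w0 i := of_decide_eq_true h
      by_contra hc
      push Not at hc
      have := hw i
      nlinarith
    · have h2 : ¬ 0 < w0 i := of_decide_eq_false h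
      have h3 : w0 i < 0 := lt_of_le_of_ne (not_lt.1 h2) (hne i)
      by_contra hc
      push Not at hc
      have := hw i
      nlinarith
  -- the linear functional and the linear map
  let l : EuclideanSpace ℝ (Fin d) →ₗ[ℝ] ℝ :=
    { toFun := fun w => ∑ i, sg i * w i
      map_add' := fun v w => by simp [mul_add, Finset.sum_add_distrib]
      map_smul' := fun c w => by
        simp only [PiLp.smul_apply, smul_eq_mul, RingHom.id_apply, Finset.mul_sum]
        exact Finset.sum_congr rfl fun i _ => by ring }
  have hl : ∀ w, l w = ∑ i, sg i * w i := fun w => rfl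
  let Lam : EuclideanSpace ℝ (Fin d) →ₗ[ℝ] E :=
    { toFun := fun w => ∑ i, (sg i * w i) • a i (decide (0 < w0 i)) - l w • ff a w0 + l w • e
      map_add' := fun v w => by
        simp only [PiLp.add_apply, mul_add, add_smul, Finset.sum_add_distrib, map_add]
        abel
      map_smul' := fun c w => by
        simp only [PiLp.smul_apply, smul_eq_mul, RingHom.id_apply, map_smul, smul_add, smul_sub,
          Finset.smul_sum, smul_smul]
        congr 2
        exact Finset.sum_congr rfl fun i _ => by congr 1; ring }
  have hLam : ∀ w, Lam w = ∑ i, (sg i * w i) • a i (decide (0 < w0 i)) - l w • ff a w0 + l w • e :=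
    fun w => rfl
  have hlw0 : l w0 = 1 := by
    rw [hl, ← h1, n1]
    exact Finset.sum_congr rfl fun i _ => hsgabs w0 (fun i => mul_self_nonneg _) i
  have hLamw0 : Lam w0 = e := by
    rw [hLam, hlw0, ← hfacet w0 (fun i => mul_self_nonneg _)]
    simp
  have hinj : Function.Injective Lam := by
    rw [← LinearMap.ker_eq_bot, LinearMap.ker_eq_bot']
    intro w hw
    have h3 := H2 (fun i => sg i * (w i - l w * w0 i)) (by
      simp only [mul_sub, Finset.sum_sub_distrib]
      rw [← hl, show ∑ i, sg i * (l w * w0 i) = l w * l w0 by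
        rw [hl w0, Finset.mul_sum]; exact Finset.sum_congr rfl fun i _ => by ring, hlw0]
      ring) (-(l w)) (by
      have e1 : ∑ i, (sg i * (w i - l w * w0 i)) • a i (decide (0 < w0 i)) =
          ∑ i, (sg i * w i) • a i (decide (0 < w0 i)) - l w • ff a w0 := by
        rw [hfacet w0 (fun i => mul_self_nonneg _), Finset.smul_sum, ← Finset.sum_sub_distrib]
        refine Finset.sum_congr rfl fun i _ => ?_
        rw [smul_smul, ← sub_smul]
        congr 1
        ring
      rw [e1, neg_smul]
      rw [hLam] at hw
      exact eq_neg_of_add_eq_zero_left hw)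
    have h4 : l w = 0 := by linarith [h3.2]
    ext i
    have h5 := congrFun h3.1 i
    simp only [h4, Pi.zero_apply, zero_mul, sub_zero] at h5
    have h6 : sg i ≠ 0 := fun h => by have := hsg2 i; rw [h] at this; norm_num at this
    simpa using (mul_eq_zero.1 h5).resolve_left h6
  set Le : EuclideanSpace ℝ (Fin d) ≃ₗ[ℝ] E := Lam.linearEquivOfInjective hinj (by
    rw [hdim]; simp) with hLe
  have hLe' : ∀ w, Le w = Lam w := fun w => rfl
  -- the contraction along rays
  have hw0ne : ‖w0‖ ≠ 0 := by
    intro h
    rw [norm_eq_zero] at h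
    rw [h] at h1
    simp [n1] at h1
  set pt : EuclideanSpace ℝ (Fin d) → Metric.sphere (0 : EuclideanSpace ℝ (Fin d)) 1 := fun w =>
    if h : ‖w‖ ≠ 0 then ⟨‖w‖⁻¹ • w, by
      rw [mem_sphere_zero_iff_norm, norm_smul, norm_inv, norm_norm, inv_mul_cancel₀ h]⟩
    else ⟨‖w0‖⁻¹ • w0, by
      rw [mem_sphere_zero_iff_norm, norm_smul, norm_inv, norm_norm, inv_mul_cancel₀ hw0ne]⟩ with hpt
  set tm : EuclideanSpace ℝ (Fin d) → unitInterval := fun w =>
    ⟨cl (2 * (1 - n1 w)), cl_nonneg _, cl_le_one _⟩ with htm
  have htmc : Continuous tm := by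
    simp only [htm]
    exact Continuous.subtype_mk (by fun_prop) _
  have hpos : ∀ {w : EuclideanSpace ℝ (Fin d)}, 0 < n1 w → ‖w‖ ≠ 0 := by
    intro w hw h
    rw [norm_eq_zero] at h
    rw [h] at hw
    simp [n1] at hw
  have hFc : Continuous fun w => H (tm w, pt w) := by
    rw [continuous_iff_continuousAt]
    intro w
    rcases lt_or_ge 0 (n1 w) with hw | hw
    · have hopen : IsOpen {w : EuclideanSpace ℝ (Fin d) | 0 < n1 w} :=
        isOpen_lt continuous_const continuous_n1
      have hon : ContinuousOn pt {w : EuclideanSpace ℝ (Fin d) | 0 < n1 w} := by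
        rw [continuousOn_iff_continuous_domRestrict]
        have hc : Continuous fun w : {w : EuclideanSpace ℝ (Fin d) | 0 < n1 w} =>
            ‖(w : EuclideanSpace ℝ (Fin d))‖⁻¹ • (w : EuclideanSpace ℝ (Fin d)) := by
          have hc1 : Continuous fun w : {w : EuclideanSpace ℝ (Fin d) | 0 < n1 w} =>
              ‖(w : EuclideanSpace ℝ (Fin d))‖⁻¹ :=
            (continuous_norm.comp continuous_subtype_val).inv₀ fun w => hpos w.2
          exact hc1.smul continuous_subtype_val
        have he : {w : EuclideanSpace ℝ (Fin d) | 0 < n1 w}.domRestrict pt =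
            fun w => ⟨‖(w : EuclideanSpace ℝ (Fin d))‖⁻¹ • (w : EuclideanSpace ℝ (Fin d)), by
              rw [mem_sphere_zero_iff_norm, norm_smul, norm_inv, norm_norm,
                inv_mul_cancel₀ (hpos w.2)]⟩ := by
          funext w
          simp only [hpt, Set.domRestrict_apply]
          rw [dif_pos (hpos w.2)]
        rw [he]
        exact Continuous.subtype_mk hc _
      have hat : ContinuousAt pt w := hon.continuousAt (hopen.mem_nhds hw)
      exact H.continuous.continuousAt.comp (htmc.continuousAt.prodMk hat)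
    · have hn : n1 w < 1 / 2 := by linarith
      have hopen : IsOpen {w : EuclideanSpace ℝ (Fin d) | n1 w < 1 / 2} :=
        isOpen_lt continuous_n1 continuous_const
      have hev : (fun w => H (tm w, pt w)) =ᶠ[𝓝 w] fun _ => p := by
        filter_upwards [hopen.mem_nhds hn] with v hv
        have hv' : n1 v < 1 / 2 := hv
        have : tm v = 1 := by
          simp only [htm]
          apply Subtype.ext
          simp only [Set.Icc.coe_one]
          exact cl_of_one_le (by linarith)
        rw [this]
        exact H.apply_one _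
      exact (continuousAt_congr hev).2 continuousAt_const
  set G : EuclideanSpace ℝ (Fin d) → EuclideanSpace ℝ (Fin d) := fun w =>
    Le.symm ((H (tm w, pt w) : E) - x) with hG
  have hGc : Continuous G := by
    have h3 : Continuous (Le.symm : E → EuclideanSpace ℝ (Fin d)) :=
      Le.symm.toLinearMap.continuous_of_finiteDimensional
    exact h3.comp ((continuous_subtype_val.comp hFc).sub continuous_const)
  have hGS : ∀ w, n1 w = 1 → G w = Le.symm (ff a w - x) := by
    intro w hw
    have e1 : tm w = 0 := by
      simp only [htm]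
      apply Subtype.ext
      simp only [Set.Icc.coe_zero]
      exact cl_of_nonpos (by rw [hw]; norm_num)
    have hwn : ‖w‖ ≠ 0 := hpos (by rw [hw]; norm_num)
    have e2 : (F (pt w) : E) = ff a w := by
      have e3 : (pt w : EuclideanSpace ℝ (Fin d)) = ‖w‖⁻¹ • w := by
        simp only [hpt]
        rw [dif_pos hwn]
      have e4 : (n1 (‖w‖⁻¹ • w))⁻¹ • ‖w‖⁻¹ • w = w := by
        rw [n1_smul, hw, abs_of_nonneg (by positivity), mul_one, inv_inv, smul_smul,
          mul_inv_cancel₀ hwn, one_smul]
      change ff a ((n1 (pt w : EuclideanSpace ℝ (Fin d)))⁻¹ • (pt w : EuclideanSpace ℝ (Fin d))) = _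
      rw [e3, e4]
    simp only [hG]
    rw [e1]
    congr 2
    rw [← e2]
    exact congrArg _ (H.apply_zero _)
  refine core (d := d) h1 hne hr0 hGc ?_ ?_ ?_
  · intro w _ h0
    have h3 : (H (tm w, pt w) : E) - x = 0 := by
      have := congrArg Le h0
      simpa [hG] using this
    exact hx (by rw [← sub_eq_zero.1 h3]; exact (H (tm w, pt w)).2)
  · intro w hw hwf
    rw [hGS w hw, LinearEquiv.symm_apply_eq, hLe', map_add, map_smul, hLamw0, hLam, ← hfacet w hwf]
    have : l w = 1 := by
      rw [hl, ← hw, n1]
      exact Finset.sum_congr rfl fun i _ => hsgabs w hwf i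
    rw [this, hw0]
    module
  · intro w hw hne' s hs h0
    rw [hGS w hw, LinearEquiv.symm_apply_eq, hLe', map_smul, hLamw0] at h0
    refine hne' (H1 w hw s hs ?_)
    rw [← h0]
    abel

end Pool.Agent.Lib.BeerIndex
end
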